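import Pool.Agent.Helper73.VL.Defs

/-!
Relative recursive enumerability: a normal form.
-/

namespace Pool.Agent.Helper73.VL

/-- The initial segment of `X` of length `k`. -/
def seg (X : Cantor) (k : ℕ) : List Bool := (List.range k).map X

@[simp] theorem seg_length (X : Cantor) (k : ℕ) : (seg X k).length = k := by simp [seg]

theorem seg_getElem? (X : Cantor) (k n : ℕ) (h : n < k) : (seg X k)[n]? = some (X n) := by
  simp [seg, h]

theorem seg_getElem?_eq (X : Cantor) (k n : ℕ) :
    (seg X k)[n]? = if n < k then some (X n) else none := by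
  by_cases h : n < k
  · simp [seg, h]
  · simp [seg, h]

theorem seg_take (X : Cantor) (j k : ℕ) (h : j ≤ k) : (seg X k).take j = seg X j := by
  simp [seg, ← List.map_take, List.take_range, Nat.min_eq_left h]

theorem seg_pre (X : Cantor) {j k : ℕ} (h : j ≤ k) : seg X j <+: seg X k := by
  rw [← seg_take X j k h]; exact List.take_prefix _ _

/-- Normal form for relative recursive enumerability. -/
def CE (A : Cantor) {α : Type*} [Primcodable α] (p : α → Prop) : Prop :=
  ∃ S : α → List Bool → Prop, PrimrecRel S ∧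
    (∀ a σ τ, σ <+: τ → S a σ → S a τ) ∧ ∀ a, p a ↔ ∃ k, S a (seg A k)

section closure

variable {α β γ : Type*} [Primcodable α] [Primcodable β] [Primcodable γ]

open Primrec

theorem exists_lt_comp {f : α → ℕ} {R : α → ℕ → Prop} (hf : Primrec f) (hR : PrimrecRel R) :
    PrimrecPred fun a => ∃ x < f a, R a x := by
  have h1 : PrimrecRel fun (L : List ℕ) (a : α) => ∃ x ∈ L, R a x :=
    PrimrecRel.exists_mem_list (R := fun x a => R a x) hR.swap
  exact (h1.comp (list_range.comp hf) Primrec.id).of_eq (by intro a; simp)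

theorem forall_lt_comp {f : α → ℕ} {R : α → ℕ → Prop} (hf : Primrec f) (hR : PrimrecRel R) :
    PrimrecPred fun a => ∀ x < f a, R a x := by
  have h1 : PrimrecRel fun (L : List ℕ) (a : α) => ∀ x ∈ L, R a x :=
    PrimrecRel.forall_mem_list (R := fun x a => R a x) hR.swap
  exact (h1.comp (list_range.comp hf) Primrec.id).of_eq (by intro a; simp)

theorem exists_decode {R : α → β → Prop} {f : α → ℕ} (hf : Primrec f) (hR : PrimrecRel R) :
    PrimrecPred fun a => ∃ b : β, Encodable.decode (f a) = some b ∧ R a b := by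
  classical
  have h : Primrec fun a => Option.casesOn (motive := fun _ => Bool)
      (Encodable.decode (α := β) (f a)) false (fun b => decide (R a b)) := by
    refine Primrec.option_casesOn (Primrec.decode.comp hf) (Primrec.const false) ?_
    exact hR.decide
  refine (Primrec.eq.comp h (Primrec.const true)).of_eq ?_
  intro a
  cases hd : Encodable.decode (α := β) (f a) with
  | none => simp
  | some b => simp

theorem CE.of_nonmono {A : Cantor} {p : α → Prop} (S : α → List Bool → Prop) (hS : PrimrecRel S)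
    (h : ∀ a, p a ↔ ∃ k, S a (seg A k)) : CE A p := by
  refine ⟨fun a σ => ∃ j < σ.length + 1, S a (σ.take j), ?_, ?_, ?_⟩
  · have h1 : PrimrecRel fun (q : α × List Bool) (j : ℕ) => S q.1 (q.2.take j) :=
      hS.comp (Primrec.fst.comp Primrec.fst)
        (Primrec.list_take.comp Primrec.snd (Primrec.snd.comp Primrec.fst))
    exact exists_lt_comp (α := α × List Bool) (f := fun q => q.2.length + 1)
      (Primrec.succ.comp (Primrec.list_length.comp Primrec.snd)) h1
  · rintro a σ τ ⟨ρ, rfl⟩ ⟨j, hj, hs⟩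
    refine ⟨j, ?_, ?_⟩
    · simp only [List.length_append]; omega
    · rwa [List.take_append_of_le_length (by omega)]
  · intro a
    rw [h a]
    constructor
    · rintro ⟨k, hk⟩
      refine ⟨k, k, by simp, ?_⟩
      rwa [seg_take _ _ _ le_rfl]
    · rintro ⟨k, j, hj, hs⟩
      rw [seg_length] at hj
      rw [seg_take _ _ _ (by omega)] at hs
      exact ⟨j, hs⟩

theorem CE.of_primrec {A : Cantor} {p : α → Prop} (hp : PrimrecPred p) : CE A p :=
  ⟨fun a _ => p a, hp.comp Primrec.fst, fun _ _ _ _ h => h, fun a => by simp⟩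

theorem CE.of_iff {A : Cantor} {p q : α → Prop} (hp : CE A p) (h : ∀ a, p a ↔ q a) : CE A q := by
  obtain ⟨S, h1, h2, h3⟩ := hp
  exact ⟨S, h1, h2, fun a => by rw [← h a, h3 a]⟩

theorem CE.comp {A : Cantor} {p : β → Prop} (hp : CE A p) {f : α → β} (hf : Primrec f) :
    CE A fun a => p (f a) := by
  obtain ⟨S, h1, h2, h3⟩ := hp
  exact ⟨fun a σ => S (f a) σ, h1.comp (hf.comp Primrec.fst) Primrec.snd,
    fun a σ τ h => h2 _ _ _ h, fun a => h3 _⟩

theorem CE.and {A : Cantor} {p q : α → Prop} (hp : CE A p) (hq : CE A q) :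
    CE A fun a => p a ∧ q a := by
  obtain ⟨S, h1, h2, h3⟩ := hp
  obtain ⟨T, g1, g2, g3⟩ := hq
  refine ⟨fun a σ => S a σ ∧ T a σ, PrimrecPred.and h1 g1,
    fun a σ τ h hh => ⟨h2 _ _ _ h hh.1, g2 _ _ _ h hh.2⟩, fun a => ?_⟩
  beta_reduce
  rw [h3, g3]
  constructor
  · rintro ⟨⟨k, hk⟩, ⟨l, hl⟩⟩
    exact ⟨max k l, h2 _ _ _ (seg_pre _ (le_max_left _ _)) hk,
      g2 _ _ _ (seg_pre _ (le_max_right _ _)) hl⟩
  · rintro ⟨k, hk, hl⟩
    exact ⟨⟨k, hk⟩, ⟨k, hl⟩⟩

theorem CE.or {A : Cantor} {p q : α → Prop} (hp : CE A p) (hq : CE A q) :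
    CE A fun a => p a ∨ q a := by
  obtain ⟨S, h1, h2, h3⟩ := hp
  obtain ⟨T, g1, g2, g3⟩ := hq
  refine ⟨fun a σ => S a σ ∨ T a σ, PrimrecPred.or h1 g1,
    fun a σ τ h hh => hh.imp (h2 _ _ _ h) (g2 _ _ _ h), fun a => ?_⟩
  beta_reduce
  rw [h3, g3]
  constructor
  · rintro (⟨k, hk⟩ | ⟨l, hl⟩)
    · exact ⟨k, Or.inl hk⟩
    · exact ⟨l, Or.inr hl⟩
  · rintro ⟨k, hk | hl⟩
    · exact Or.inl ⟨k, hk⟩
    · exact Or.inr ⟨k, hl⟩

theorem CE.ex {A : Cantor} {p : α → β → Prop} (hp : CE A fun q : α × β => p q.1 q.2) :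
    CE A fun a => ∃ b, p a b := by
  obtain ⟨S, h1, h2, h3⟩ := hp
  refine ⟨fun a σ => ∃ n < σ.length, ∃ b : β, Encodable.decode n = some b ∧ S (a, b) σ,
    ?_, ?_, ?_⟩
  · have h4 : PrimrecRel fun (q : (α × List Bool) × ℕ) (b : β) => S (q.1.1, b) q.1.2 :=
      h1.comp (Primrec.pair (Primrec.fst.comp (Primrec.fst.comp Primrec.fst)) Primrec.snd)
        (Primrec.snd.comp (Primrec.fst.comp Primrec.fst))
    have h5 : PrimrecPred fun (q : (α × List Bool) × ℕ) =>
        ∃ b : β, Encodable.decode q.2 = some b ∧ S (q.1.1, b) q.1.2 :=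
      exists_decode (f := fun q : (α × List Bool) × ℕ => q.2) Primrec.snd h4
    exact exists_lt_comp (α := α × List Bool) (f := fun q => q.2.length)
      (R := fun q n => ∃ b : β, Encodable.decode n = some b ∧ S (q.1, b) q.2)
      (Primrec.list_length.comp Primrec.snd) h5
  · rintro a σ τ h ⟨n, hn, b, hb, hs⟩
    exact ⟨n, lt_of_lt_of_le hn h.length_le, b, hb, h2 _ _ _ h hs⟩
  · intro a
    constructor
    · rintro ⟨b, hb⟩
      obtain ⟨k, hk⟩ := (h3 (a, b)).1 hb
      refine ⟨max k (Encodable.encode b + 1), Encodable.encode b, ?_, b,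
        Encodable.encodek _, h2 _ _ _ (seg_pre _ (le_max_left _ _)) hk⟩
      rw [seg_length]; omega
    · rintro ⟨k, n, hn, b, hb, hs⟩
      exact ⟨b, (h3 (a, b)).2 ⟨k, hs⟩⟩

theorem CE.ball {A : Cantor} {p : α → ℕ → Prop} (hp : CE A fun q : α × ℕ => p q.1 q.2)
    {f : α → ℕ} (hf : Primrec f) : CE A fun a => ∀ i < f a, p a i := by
  obtain ⟨S, h1, h2, h3⟩ := hp
  refine ⟨fun a σ => ∀ i < f a, S (a, i) σ, ?_, ?_, ?_⟩
  · have h4 : PrimrecRel fun (q : α × List Bool) (i : ℕ) => S (q.1, i) q.2 :=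
      h1.comp (Primrec.pair (Primrec.fst.comp Primrec.fst) Primrec.snd)
        (Primrec.snd.comp Primrec.fst)
    exact forall_lt_comp (α := α × List Bool) (f := fun q => f q.1) (hf.comp Primrec.fst) h4
  · intro a σ τ h hh i hi
    exact h2 _ _ _ h (hh i hi)
  · intro a
    constructor
    · intro h
      have h5 : ∀ i, ∃ k, i < f a → S (a, i) (seg A k) := by
        intro i
        by_cases hi : i < f a
        · obtain ⟨k, hk⟩ := (h3 (a, i)).1 (h i hi)
          exact ⟨k, fun _ => hk⟩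
        · exact ⟨0, fun h => absurd h hi⟩
      choose K hK using h5
      refine ⟨(Finset.range (f a)).sup K, fun i hi => ?_⟩
      exact h2 _ _ _ (seg_pre _ (Finset.le_sup (f := K) (Finset.mem_range.2 hi))) (hK i hi)
    · rintro ⟨k, hk⟩ i hi
      exact (h3 (a, i)).2 ⟨k, hk i hi⟩

theorem CE.oracle (A : Cantor) : CE A fun q : ℕ × ℕ => q.2 ∈ chi A q.1 := by
  refine CE.of_nonmono (fun q σ => (σ[q.1]?).map Bool.toNat = some q.2) ?_ ?_
  · refine Primrec.eq.comp ?_ ?_
    · refine Primrec.option_map (f := fun x : (ℕ × ℕ) × List Bool => x.2[x.1.1]?)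
        (g := fun _ b => Bool.toNat b) ?_ ?_
      · exact Primrec.list_getElem?.comp Primrec.snd (Primrec.fst.comp Primrec.fst)
      · exact (Primrec.dom_bool Bool.toNat).comp₂ Primrec₂.right
    · exact Primrec.option_some.comp (Primrec.snd.comp Primrec.fst)
  · rintro ⟨n, m⟩
    simp only [chi, Part.mem_some_iff]
    constructor
    · intro h
      refine ⟨n + 1, ?_⟩
      rw [seg_getElem? _ _ _ (by omega)]
      simp [h]
    · rintro ⟨k, hk⟩
      rw [seg_getElem?_eq] at hk
      by_cases h : n < k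
      · simp [h] at hk; exact hk.symm
      · simp [h] at hk

end closure

/-- The iteration used in primitive recursion, as a relation with a finite witness. -/
theorem mem_natRec_iff (x : Part ℕ) (g : ℕ → ℕ → Part ℕ) (n m : ℕ) :
    m ∈ (Nat.rec x (fun y IH => IH.bind fun i => g y i) n : Part ℕ) ↔
      ∃ l : List ℕ, l.getD 0 0 ∈ x ∧ (∀ i < n, l.getD (i + 1) 0 ∈ g i (l.getD i 0)) ∧
        l.getD n 0 = m := by
  induction n generalizing m with
  | zero =>
    constructor
    · intro h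
      exact ⟨[m], h, by simp, by simp⟩
    · rintro ⟨l, h1, -, h3⟩
      rw [h3] at h1
      exact h1
  | succ n ih =>
    constructor
    · intro h
      obtain ⟨i, hi, hm⟩ := Part.mem_bind_iff.1 h
      obtain ⟨l, h1, h2, h3⟩ := (ih i).1 hi
      -- normalise the list to length n+1
      have hlen : ∀ j ≤ n, ((List.range (n + 1)).map (fun j => l.getD j 0) ++ [m]).getD j 0
          = l.getD j 0 := by
        intro j hj
        rw [List.getD_append _ _ _ _ (by simp; omega)]
        simp [List.getD_eq_getElem?_getD, List.getElem?_map, List.getElem?_range, hj,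
          Nat.lt_succ_of_le hj]
      have hlast : ((List.range (n + 1)).map (fun j => l.getD j 0) ++ [m]).getD (n + 1) 0 = m := by
        rw [List.getD_append_right _ _ _ _ (by simp)]
        simp
      refine ⟨(List.range (n + 1)).map (fun j => l.getD j 0) ++ [m], ?_, ?_, hlast⟩
      · rw [hlen 0 (by omega)]; exact h1
      · intro j hj
        rcases Nat.lt_succ_iff_lt_or_eq.1 hj with h | h
        · rw [hlen (j + 1) (by omega), hlen j (by omega)]
          exact h2 j h
        · subst h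
          rw [hlast, hlen j le_rfl, h3]
          exact hm
    · rintro ⟨l, h1, h2, h3⟩
      refine Part.mem_bind_iff.2 ⟨l.getD n 0, (ih _).2 ⟨l, h1, fun i hi => h2 i (by omega), rfl⟩, ?_⟩
      have := h2 n (by omega)
      rwa [h3] at this

open Primrec in
/-- The use principle: the graph of a function recursive in `A` is relatively r.e. in the
normal-form sense. -/
theorem CE.graph {A : Cantor} {f : ℕ →. ℕ} (hf : Nat.RecursiveIn {chi A} f) :
    CE A fun q : ℕ × ℕ => q.2 ∈ f q.1 := by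
  induction hf with
  | zero =>
    refine CE.of_iff (CE.of_primrec (p := fun q : ℕ × ℕ => q.2 = 0) ?_) ?_
    · exact Primrec.eq.comp Primrec.snd (Primrec.const 0)
    · intro a; exact (Part.mem_some_iff).symm
  | succ =>
    refine CE.of_iff (CE.of_primrec (p := fun q : ℕ × ℕ => q.2 = Nat.succ q.1) ?_) ?_
    · exact Primrec.eq.comp Primrec.snd (Primrec.succ.comp Primrec.fst)
    · intro a; exact (Part.mem_some_iff).symm
  | left =>
    refine CE.of_iff (CE.of_primrec (p := fun q : ℕ × ℕ => q.2 = (Nat.unpair q.1).1) ?_) ?_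
    · exact Primrec.eq.comp Primrec.snd (Primrec.fst.comp (Primrec.unpair.comp Primrec.fst))
    · intro a; exact (Part.mem_some_iff).symm
  | right =>
    refine CE.of_iff (CE.of_primrec (p := fun q : ℕ × ℕ => q.2 = (Nat.unpair q.1).2) ?_) ?_
    · exact Primrec.eq.comp Primrec.snd (Primrec.snd.comp (Primrec.unpair.comp Primrec.fst))
    · intro a; exact (Part.mem_some_iff).symm
  | oracle g hg =>
    rw [Set.mem_singleton_iff] at hg
    subst hg
    exact CE.oracle A
  | @pair f h _ _ ihf ihh =>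
    have h1 : CE A fun q : ℕ × ℕ => (q.2.unpair.1 ∈ f q.1) ∧ (q.2.unpair.2 ∈ h q.1) := by
      refine CE.and ?_ ?_
      · exact ihf.comp (f := fun q : ℕ × ℕ => (q.1, q.2.unpair.1))
          (Primrec.pair Primrec.fst (Primrec.fst.comp (Primrec.unpair.comp Primrec.snd)))
      · exact ihh.comp (f := fun q : ℕ × ℕ => (q.1, q.2.unpair.2))
          (Primrec.pair Primrec.fst (Primrec.snd.comp (Primrec.unpair.comp Primrec.snd)))
    refine h1.of_iff ?_
    rintro ⟨n, m⟩
    simp only [Seq.seq, Part.map_eq_map, Part.mem_bind_iff, Part.mem_map_iff]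
    constructor
    · rintro ⟨ha, hb⟩
      exact ⟨_, ⟨_, ha, rfl⟩, _, hb, by simp⟩
    · rintro ⟨_, ⟨a, ha, rfl⟩, b, hb, hab⟩
      rw [← hab]
      simpa using ⟨ha, hb⟩
  | @comp f h _ _ ihf ihh =>
    have h1 : CE A fun q : ℕ × ℕ => ∃ k : ℕ, (k ∈ h q.1) ∧ (q.2 ∈ f k) := by
      refine CE.ex (p := fun (q : ℕ × ℕ) (k : ℕ) => (k ∈ h q.1) ∧ (q.2 ∈ f k)) ?_
      refine CE.and ?_ ?_
      · exact ihh.comp (f := fun q : (ℕ × ℕ) × ℕ => (q.1.1, q.2))
          (Primrec.pair (Primrec.fst.comp Primrec.fst) Primrec.snd)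
      · exact ihf.comp (f := fun q : (ℕ × ℕ) × ℕ => (q.2, q.1.2))
          (Primrec.pair Primrec.snd (Primrec.snd.comp Primrec.fst))
    refine h1.of_iff ?_
    rintro ⟨n, m⟩
    exact (Part.mem_bind_iff (f := h n) (g := f) (b := m)).symm
  | @prec f h _ _ ihf ihh =>
    have h1 : CE A fun q : ℕ × ℕ => ∃ l : List ℕ, (l.getD 0 0 ∈ f q.1.unpair.1) ∧
        ((∀ i < q.1.unpair.2, l.getD (i + 1) 0 ∈
          h (Nat.pair q.1.unpair.1 (Nat.pair i (l.getD i 0)))) ∧ l.getD q.1.unpair.2 0 = q.2) := by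
      have pL : Primrec fun q : (ℕ × ℕ) × List ℕ => q.1.1.unpair.1 :=
        Primrec.fst.comp (Primrec.unpair.comp (Primrec.fst.comp Primrec.fst))
      have pR : Primrec fun q : (ℕ × ℕ) × List ℕ => q.1.1.unpair.2 :=
        Primrec.snd.comp (Primrec.unpair.comp (Primrec.fst.comp Primrec.fst))
      refine CE.ex (p := fun (q : ℕ × ℕ) (l : List ℕ) => (l.getD 0 0 ∈ f q.1.unpair.1) ∧
        ((∀ i < q.1.unpair.2, l.getD (i + 1) 0 ∈
          h (Nat.pair q.1.unpair.1 (Nat.pair i (l.getD i 0)))) ∧ l.getD q.1.unpair.2 0 = q.2)) ?_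
      refine CE.and ?_ (CE.and ?_ ?_)
      · exact ihf.comp (f := fun q : (ℕ × ℕ) × List ℕ => (q.1.1.unpair.1, q.2.getD 0 0))
          (Primrec.pair pL ((Primrec.list_getD 0).comp Primrec.snd (Primrec.const 0)))
      · refine CE.ball (p := fun (q : (ℕ × ℕ) × List ℕ) (i : ℕ) => q.2.getD (i + 1) 0 ∈
          h (Nat.pair q.1.1.unpair.1 (Nat.pair i (q.2.getD i 0)))) ?_ pR
        refine ihh.comp (f := fun x : ((ℕ × ℕ) × List ℕ) × ℕ =>
          (Nat.pair x.1.1.1.unpair.1 (Nat.pair x.2 (x.1.2.getD x.2 0)),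
            x.1.2.getD (x.2 + 1) 0)) ?_
        refine Primrec.pair ?_ ?_
        · refine Primrec₂.natPair.comp (pL.comp Primrec.fst) ?_
          refine Primrec₂.natPair.comp Primrec.snd ?_
          exact (Primrec.list_getD 0).comp (Primrec.snd.comp Primrec.fst) Primrec.snd
        · exact (Primrec.list_getD 0).comp (Primrec.snd.comp Primrec.fst)
            (Primrec.succ.comp Primrec.snd)
      · refine CE.of_primrec ?_
        refine Primrec.eq.comp ?_ (Primrec.snd.comp Primrec.fst)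
        exact (Primrec.list_getD 0).comp Primrec.snd pR
    refine h1.of_iff ?_
    rintro ⟨n, m⟩
    exact (mem_natRec_iff (f n.unpair.1) (fun y i => h (Nat.pair n.unpair.1 (Nat.pair y i)))
      n.unpair.2 m).symm
  | @rfind f _ ihf =>
    have h1 : CE A fun q : ℕ × ℕ => (0 ∈ f (Nat.pair q.1 q.2)) ∧
        ∀ k < q.2, ∃ v : ℕ, (v ∈ f (Nat.pair q.1 k)) ∧ v ≠ 0 := by
      refine CE.and ?_ ?_
      · exact ihf.comp (f := fun q : ℕ × ℕ => (Nat.pair q.1 q.2, 0))
          (Primrec.pair (Primrec₂.natPair.comp Primrec.fst Primrec.snd) (Primrec.const 0))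
      · refine CE.ball (p := fun (q : ℕ × ℕ) (k : ℕ) =>
          ∃ v : ℕ, (v ∈ f (Nat.pair q.1 k)) ∧ v ≠ 0) ?_ Primrec.snd
        refine CE.ex (p := fun (x : (ℕ × ℕ) × ℕ) (v : ℕ) =>
          (v ∈ f (Nat.pair x.1.1 x.2)) ∧ v ≠ 0) ?_
        refine CE.and ?_ ?_
        · exact ihf.comp (f := fun x : ((ℕ × ℕ) × ℕ) × ℕ => (Nat.pair x.1.1.1 x.1.2, x.2))
            (Primrec.pair (Primrec₂.natPair.comp
              (Primrec.fst.comp (Primrec.fst.comp Primrec.fst))
              (Primrec.snd.comp Primrec.fst)) Primrec.snd)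
        · refine CE.of_primrec ?_
          exact PrimrecPred.not (Primrec.eq.comp Primrec.snd (Primrec.const 0))
    refine h1.of_iff ?_
    rintro ⟨n, m⟩
    refine Iff.trans ?_ (Nat.mem_rfind (p := fun k => (fun m => decide (m = 0)) <$>
      f (Nat.pair n k)) (n := m)).symm
    constructor
    · rintro ⟨h0, hk⟩
      refine ⟨(Part.mem_map_iff _).2 ⟨0, h0, by simp⟩, fun {k} hkm => ?_⟩
      obtain ⟨v, hv, hv0⟩ := hk k hkm
      exact (Part.mem_map_iff _).2 ⟨v, hv, by simp [hv0]⟩
    · rintro ⟨h0, hk⟩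
      obtain ⟨v, hv, hv0⟩ := (Part.mem_map_iff _).1 h0
      refine ⟨?_, fun k hkm => ?_⟩
      · simp at hv0; subst hv0; exact hv
      · obtain ⟨v, hv, hv0⟩ := (Part.mem_map_iff _).1 (hk hkm)
        exact ⟨v, hv, by simpa using hv0⟩

end Pool.Agent.Helper73.VL
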