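import Pool.Agent.Helper73.VL.Comp

namespace Pool.Agent.Helper73.VL

open Encodable

theorem seg_succ (X : Cantor) (k : ℕ) : seg X (k + 1) = seg X k ++ [X k] := by
  simp [seg, List.range_succ]

theorem recIn_prim {O : Set (ℕ →. ℕ)} {f : ℕ → ℕ} (hf : Primrec f) :
    Nat.RecursiveIn O (fun n => Part.some (f n)) :=
  (Nat.Primrec.recursiveIn (Primrec.nat_iff.1 hf)).of_eq fun _ => rfl

theorem recIn_seg (A : Cantor) :
    Nat.RecursiveIn {chi A} (fun k => Part.some (encode (seg A k))) := by
  -- the step function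
  let G : ℕ → ℕ := fun x => encode (((decode (α := List Bool) x.unpair.1).getD []) ++
    [decide (x.unpair.2 = 1)])
  have hG : Primrec G := by
    refine Primrec.encode.comp (Primrec.list_append.comp ?_ ?_)
    · exact Primrec.option_getD.comp
        (Primrec.decode.comp (Primrec.fst.comp Primrec.unpair)) (Primrec.const [])
    · refine Primrec.list_cons.comp ?_ (Primrec.const [])
      exact PrimrecRel.decide Primrec.eq |>.comp (Primrec.snd.comp Primrec.unpair)
        (Primrec.const 1)
  have hy : Nat.RecursiveIn {chi A}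
      (fun n => (Part.some (n.unpair.2.unpair.1) : Part ℕ)) :=
    recIn_prim (Primrec.fst.comp (Primrec.unpair.comp (Primrec.snd.comp Primrec.unpair)))
  have hi : Nat.RecursiveIn {chi A}
      (fun n => (Part.some (n.unpair.2.unpair.2) : Part ℕ)) :=
    recIn_prim (Primrec.snd.comp (Primrec.unpair.comp (Primrec.snd.comp Primrec.unpair)))
  have ho1 : Nat.RecursiveIn {chi A} (chi A) := Nat.RecursiveIn.oracle _ (Set.mem_singleton _)
  have ho : Nat.RecursiveIn {chi A}
      (fun n => (Part.some (A n.unpair.2.unpair.1).toNat : Part ℕ)) :=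
    (Nat.RecursiveIn.comp ho1 hy).of_eq fun n => Part.bind_some _ (chi A)
  have hp := Nat.RecursiveIn.comp (recIn_prim (O := {chi A}) hG) (Nat.RecursiveIn.pair hi ho)
  have hstep : Nat.RecursiveIn {chi A} (fun n => Part.some
      (G (Nat.pair n.unpair.2.unpair.2 (A n.unpair.2.unpair.1).toNat))) := by
    refine hp.of_eq fun n => ?_
    simp [Seq.seq]
  have hprec := Nat.RecursiveIn.prec (recIn_prim (O := {chi A})
    (Primrec.const (encode ([] : List Bool)))) hstep
  have hfin := Nat.RecursiveIn.comp hprec (recIn_prim (O := {chi A})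
    (f := fun k => Nat.pair 0 k) (Primrec₂.natPair.comp (Primrec.const 0) Primrec.id))
  refine hfin.of_eq fun k => ?_
  rw [Part.bind_eq_bind, Part.bind_some]
  simp only [Nat.unpair_pair]
  induction k with
  | zero => simp [seg]
  | succ k ih =>
    simp only at ih ⊢
    rw [ih]
    simp only [Part.bind_eq_bind, Part.bind_some, G, Nat.unpair_pair, encodek, Option.getD_some,
      seg_succ]
    congr 3
    cases A k <;> simp

theorem recIn_of_CE {A : Cantor} {f : ℕ →. ℕ} (h : CE A fun q : ℕ × ℕ => q.2 ∈ f q.1) :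
    Nat.RecursiveIn {chi A} f := by
  classical
  obtain ⟨S, hS, -, hf⟩ := h
  let T : ℕ → ℕ := fun x =>
    if S (x.unpair.1, x.unpair.2.unpair.1.unpair.2)
      ((decode (α := List Bool) x.unpair.2.unpair.2).getD []) then 0 else 1
  have hT : Primrec T := by
    refine Primrec.ite ?_ (Primrec.const 0) (Primrec.const 1)
    refine hS.comp (Primrec.pair (Primrec.fst.comp Primrec.unpair) ?_) ?_
    · exact Primrec.snd.comp (Primrec.unpair.comp (Primrec.fst.comp (Primrec.unpair.comp
        (Primrec.snd.comp Primrec.unpair))))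
    · exact Primrec.option_getD.comp (Primrec.decode.comp (Primrec.snd.comp (Primrec.unpair.comp
        (Primrec.snd.comp Primrec.unpair)))) (Primrec.const [])
  have h1 : Nat.RecursiveIn {chi A} (fun z => Part.some (encode (seg A z.unpair.2.unpair.1))) :=
    (Nat.RecursiveIn.comp (recIn_seg A) (recIn_prim (O := {chi A})
      (f := fun z => z.unpair.2.unpair.1)
      (Primrec.fst.comp (Primrec.unpair.comp (Primrec.snd.comp Primrec.unpair))))).of_eq
      fun z => by rw [Part.bind_eq_bind, Part.bind_some]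
  have h2 : Nat.RecursiveIn {chi A} (fun z => Part.some (Nat.pair z.unpair.2
      (encode (seg A z.unpair.2.unpair.1)))) :=
    (Nat.RecursiveIn.pair (recIn_prim (O := {chi A}) (f := fun z => z.unpair.2)
      (Primrec.snd.comp Primrec.unpair)) h1).of_eq fun z => by simp [Seq.seq]
  have h3 : Nat.RecursiveIn {chi A} (fun z => Part.some (Nat.pair z.unpair.1
      (Nat.pair z.unpair.2 (encode (seg A z.unpair.2.unpair.1))))) :=
    (Nat.RecursiveIn.pair (recIn_prim (O := {chi A}) (f := fun z => z.unpair.1)
      (Primrec.fst.comp Primrec.unpair)) h2).of_eq fun z => by simp [Seq.seq]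
  have h4 : Nat.RecursiveIn {chi A} (fun z => Part.some (T (Nat.pair z.unpair.1
      (Nat.pair z.unpair.2 (encode (seg A z.unpair.2.unpair.1)))))) :=
    (Nat.RecursiveIn.comp (recIn_prim (O := {chi A}) hT) h3).of_eq fun z => by
      rw [Part.bind_eq_bind, Part.bind_some]
  have h5 := Nat.RecursiveIn.comp (recIn_prim (O := {chi A}) (f := fun z => z.unpair.2)
      (Primrec.snd.comp Primrec.unpair)) (Nat.RecursiveIn.rfind h4)
  refine h5.of_eq fun n => ?_
  have key : ∀ q, (T (Nat.pair n (Nat.pair q (encode (seg A q.unpair.1)))) = 0) ↔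
      S (n, q.unpair.2) (seg A q.unpair.1) := by
    intro q
    simp [T]
  ext m
  rw [Part.bind_eq_bind, Part.mem_bind_iff]
  constructor
  · rintro ⟨q, hq, hm⟩
    have hq1 := (Nat.mem_rfind.1 hq).1
    simp only [Nat.unpair_pair, Part.map_eq_map, Part.map_some, Part.mem_some_iff] at hq1 hm
    subst hm
    have := (key q).1 (by simpa using hq1)
    exact (hf (n, q.unpair.2)).2 ⟨_, this⟩
  · intro hm
    obtain ⟨k, hk⟩ := (hf (n, m)).1 hm
    have hex : ∃ q : ℕ, S (n, q.unpair.2) (seg A q.unpair.1) := ⟨Nat.pair k m, by simpa using hk⟩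
    refine ⟨Nat.find hex, ?_, ?_⟩
    · refine Nat.mem_rfind.2 ⟨?_, fun {j} hj => ?_⟩
      · simp only [Nat.unpair_pair, Part.map_eq_map, Part.map_some, Part.mem_some_iff]
        simpa using (key _).2 (Nat.find_spec hex)
      · simp only [Nat.unpair_pair, Part.map_eq_map, Part.map_some, Part.mem_some_iff]
        have := Nat.find_min hex hj
        simpa using fun h => this ((key _).1 h)
    · have h6 : (Nat.find hex).unpair.2 ∈ f n := (hf (n, _)).2 ⟨_, Nat.find_spec hex⟩
      have h7 := Part.mem_unique hm h6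
      simp [← h7]

theorem recIn_iff_CE {A : Cantor} {f : ℕ →. ℕ} :
    Nat.RecursiveIn {chi A} f ↔ CE A fun q : ℕ × ℕ => q.2 ∈ f q.1 :=
  ⟨CE.graph, recIn_of_CE⟩

/-- A relatively r.e. predicate, in the sense of Mathlib's `RecursiveIn`: the domain of a
function recursive in the oracle. -/
def RelRE (A : Cantor) {α : Type*} [Primcodable α] (p : α → Prop) : Prop :=
  ∃ f : α →. Unit, RecursiveIn {chi A} f ∧ ∀ a, p a ↔ (f a).Dom

theorem relRE_iff_CE {α : Type*} [Primcodable α] {A : Cantor} {p : α → Prop} :
    RelRE A p ↔ CE A p := by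
  constructor
  · rintro ⟨f, hf, hp⟩
    have h1 := (CE.graph hf).comp (f := fun q : α × ℕ => (encode q.1, q.2))
      (Primrec.pair (Primrec.encode.comp Primrec.fst) Primrec.snd)
    have h2 : CE A fun a : α => ∃ m : ℕ, m ∈ (Part.bind (decode (α := α) (encode a)) fun a =>
        (f a).map encode) := CE.ex h1
    refine h2.of_iff fun a => ?_
    rw [hp a]
    simp only [encodek, Part.coe_some, Part.bind_some]
    rw [← Part.dom_iff_mem]
    simp
  · intro h
    refine ⟨fun a => Part.assert (p a) fun _ => Part.some (), ?_, fun a => ?_⟩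
    · refine recIn_of_CE ?_
      -- graph
      have h1 : CE A fun q : ℕ × ℕ => ∃ a : α, (p a) ∧ (decode q.1 = some a ∧ q.2 = 0) := by
        refine CE.ex (p := fun (q : ℕ × ℕ) (a : α) => (p a) ∧ (decode q.1 = some a ∧ q.2 = 0)) ?_
        refine CE.and (h.comp Primrec.snd) (CE.of_primrec ?_)
        refine PrimrecPred.and ?_ ?_
        · exact Primrec.eq.comp (Primrec.decode.comp (Primrec.fst.comp Primrec.fst))
            (Primrec.option_some.comp Primrec.snd)
        · exact Primrec.eq.comp (Primrec.snd.comp Primrec.fst) (Primrec.const 0)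
      refine h1.of_iff ?_
      rintro ⟨n, m⟩
      simp only [Part.mem_bind_iff, Part.mem_coe, Option.mem_def, Part.mem_map_iff,
        Part.mem_assert_iff, Part.mem_some_iff]
      constructor
      · rintro ⟨a, ha, hd, rfl⟩
        exact ⟨a, hd, (), ⟨ha, trivial⟩, rfl⟩
      · rintro ⟨a, hd, u, ⟨ha, -⟩, hu⟩
        exact ⟨a, ha, hd, hu.symm⟩
    · simp [Part.assert]

end Pool.Agent.Helper73.VL
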