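import Mathlib

/-!
Definitions for the van Lambalgen property of `Rand^A_B`.
Subsets of `ℕ` are identified with infinite binary sequences, elements of `Cantor = (ℕ → Bool)`.
-/

open MeasureTheory

namespace Pool.Agent.Helper73.VL

/-- Cantor space: subsets of `ℕ`, identified with infinite binary sequences. -/
abbrev Cantor : Type := ℕ → Bool

/-- The characteristic function of `X`, used as an oracle. -/
def chi (X : Cantor) : ℕ →. ℕ := fun n => Part.some (X n).toNat

/-- The fair coin: mass `1/2` on each of `false`, `true`. -/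
noncomputable def coin : Measure Bool := (2⁻¹ : ENNReal) • (Measure.dirac false + Measure.dirac true)

theorem coin_singleton (b : Bool) : coin {b} = 2⁻¹ := by
  cases b <;> simp [coin]

instance : IsProbabilityMeasure coin := ⟨by
  simp only [coin, Measure.smul_apply, Measure.add_apply, measure_univ, smul_eq_mul]
  rw [one_add_one_eq_two]
  exact ENNReal.inv_mul_cancel (by norm_num) (by norm_num)⟩

/-- The uniform (Lebesgue, fair-coin) measure on Cantor space. -/
noncomputable def lam : Measure Cantor := Measure.infinitePi (fun _ : ℕ => coin)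

/-- The cylinder `[σ]` of all sequences extending the finite string `σ`. -/
def cyl (σ : List Bool) : Set Cantor := {X | ∀ i (h : i < σ.length), X i = σ[i]}

/-- The join `X ⊕ Y = {2n : n ∈ X} ∪ {2n+1 : n ∈ Y}`. -/
def join (X Y : Cantor) : Cantor := fun n => if n % 2 = 0 then X (n / 2) else Y (n / 2)

/-- `U` is a sequence of classes `U n = ⋃ {[σ] : (n, σ) ∈ W}` with `W` recursively enumerable
in `A` (`W` is the domain of a function recursive in `A`): the `U n` are uniformly `Σ⁰₁`
relative to `A`. -/
def UnifSigma (A : Cantor) (U : ℕ → Set Cantor) : Prop :=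
  ∃ f : ℕ × List Bool →. Unit, RecursiveIn {chi A} f ∧
    ∀ n, U n = {X | ∃ σ, (f (n, σ)).Dom ∧ X ∈ cyl σ}

/-- Martin-Löf tests relative to `A`. -/
def IsMLTest (A : Cantor) (U : ℕ → Set Cantor) : Prop :=
  UnifSigma A U ∧ ∀ n, lam (U n) ≤ 2⁻¹ ^ n

/-- `X` is Martin-Löf random relative to `A`, for short `A`-random. -/
def MLRandom (A X : Cantor) : Prop := ∀ U, IsMLTest A U → X ∉ ⋂ n, U n

/-- `X` and `B` form a minimal pair in the Turing degrees: every set Turing reducible to both
is computable. -/
def MinPair (X B : Cantor) : Prop :=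
  ∀ C : Cantor, TuringReducible (chi C) (chi X) → TuringReducible (chi C) (chi B) → Computable C

/-- `Rand^A_B`. -/
def Rand (A B : Cantor) : Set Cantor := {X | MLRandom A X ∧ MinPair X B}

/-- The van Lambalgen property of the pair `(A, B)`: conditions (i), (ii), (iii) are
equivalent for all `X`, `Y`. -/
def VanLambalgenProperty (A B : Cantor) : Prop :=
  ∀ X Y : Cantor,
    (join X Y ∈ Rand A B ↔ (X ∈ Rand A B ∧ Y ∈ Rand (join A X) B)) ∧
    (join X Y ∈ Rand A B ↔ (Y ∈ Rand A B ∧ X ∈ Rand (join A Y) B))

end Pool.Agent.Helper73.VL
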