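import Pool.Agent.Helper73.VL.Test

open MeasureTheory

namespace Pool.Agent.Helper73.VL

section

variable {α β : Type*} [Primcodable α] [Primcodable β]

/-- `D` is computable from `O`, in normal-form. -/
def GraphCE (O D : Cantor) : Prop := CE O fun q : ℕ × Bool => D q.1 = q.2

theorem GraphCE.self (O : Cantor) : GraphCE O O := by
  refine ((CE.oracle O).comp (f := fun q : ℕ × Bool => (q.1, q.2.toNat))
    (Primrec.pair Primrec.fst ((Primrec.dom_bool Bool.toNat).comp Primrec.snd))).of_iff ?_
  rintro ⟨n, b⟩
  simp only [chi, Part.mem_some_iff]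
  constructor
  · intro h; cases hb : O n <;> cases b <;> simp_all
  · intro h; rw [h]

theorem GraphCE.of_tred {D O : Cantor} (h : TuringReducible (chi D) (chi O)) : GraphCE O D := by
  have h1 := CE.graph (A := O) (RecursiveIn.iff_nat.1 h)
  refine (h1.comp (f := fun q : ℕ × Bool => (q.1, q.2.toNat))
    (Primrec.pair Primrec.fst ((Primrec.dom_bool Bool.toNat).comp Primrec.snd))).of_iff ?_
  rintro ⟨n, b⟩
  simp only [chi, Part.mem_some_iff]
  constructor
  · intro h; cases hb : D n <;> cases b <;> simp_all
  · intro h; rw [h]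

theorem GraphCE.tred {D O : Cantor} (h : GraphCE O D) : TuringReducible (chi D) (chi O) := by
  refine RecursiveIn.iff_nat.2 (recIn_of_CE ?_)
  have h1 : CE O fun q : ℕ × ℕ => ∃ b : Bool, (D q.1 = b) ∧ q.2 = b.toNat := by
    refine CE.ex (p := fun (q : ℕ × ℕ) (b : Bool) => (D q.1 = b) ∧ q.2 = b.toNat) ?_
    refine CE.and ?_ (CE.of_primrec ?_)
    · exact CE.comp h (f := fun x : (ℕ × ℕ) × Bool => (x.1.1, x.2))
        (Primrec.pair (Primrec.fst.comp Primrec.fst) Primrec.snd)
    · exact Primrec.eq.comp (Primrec.snd.comp Primrec.fst)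
        ((Primrec.dom_bool Bool.toNat).comp Primrec.snd)
  refine h1.of_iff ?_
  rintro ⟨n, m⟩
  simp [chi, Part.mem_some_iff]

theorem CE.seg_eq {O X : Cantor} (hX : GraphCE O X) :
    CE O fun σ : List Bool => seg X σ.length = σ := by
  have h1 : CE O fun σ : List Bool => ∀ i < σ.length, X i = σ.getD i false := by
    refine CE.ball (p := fun (σ : List Bool) (i : ℕ) => X i = σ.getD i false) ?_ Primrec.list_length
    refine CE.comp hX (f := fun x : List Bool × ℕ => (x.2, x.1.getD x.2 false)) ?_
    exact Primrec.pair Primrec.snd ((Primrec.list_getD false).comp Primrec.fst Primrec.snd)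
  refine h1.of_iff fun σ => ?_
  rw [← mem_cyl_iff]
  constructor
  · intro h i hi
    rw [h i hi]; simp [List.getD_eq_getElem?_getD, hi]
  · intro h i hi
    rw [h i hi]; simp [List.getD_eq_getElem?_getD, hi]

theorem CE.subst_seg {O X : Cantor} (hX : GraphCE O X) {P : α → List Bool → Prop}
    (hP : CE O fun q : α × List Bool => P q.1 q.2) {f : α → ℕ} (hf : Primrec f) :
    CE O fun a => P a (seg X (f a)) := by
  have h1 : CE O fun a : α => ∃ σ : List Bool, (seg X σ.length = σ) ∧
      ((σ.length = f a) ∧ P a σ) := by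
    refine CE.ex (p := fun (a : α) (σ : List Bool) => (seg X σ.length = σ) ∧
      ((σ.length = f a) ∧ P a σ)) ?_
    refine CE.and ((CE.seg_eq hX).comp Primrec.snd) (CE.and (CE.of_primrec ?_) hP)
    exact Primrec.eq.comp (Primrec.list_length.comp Primrec.snd) (hf.comp Primrec.fst)
  refine h1.of_iff fun a => ?_
  constructor
  · rintro ⟨σ, h1, h2, h3⟩
    rw [← h2, h1]; exact h3
  · intro h
    exact ⟨seg X (f a), by simp, by simp, h⟩

theorem CE.trans {A B : Cantor} {p : α → Prop} (hp : CE B p) (hBA : GraphCE A B) : CE A p := by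
  obtain ⟨S, hS, -, hp⟩ := hp
  have h1 : CE A fun q : α × ℕ => S q.1 (seg B q.2) := by
    refine CE.subst_seg hBA (P := fun (q : α × ℕ) σ => S q.1 σ) (CE.of_primrec ?_) Primrec.snd
    exact hS.comp (Primrec.fst.comp Primrec.fst) Primrec.snd
  exact (CE.ex h1).of_iff fun a => (hp a).symm

theorem GraphCE.left (A X : Cantor) : GraphCE (join A X) A := by
  refine (CE.comp (GraphCE.self (join A X)) (f := fun q : ℕ × Bool => (2 * q.1, q.2))
    (Primrec.pair (Primrec.nat_mul.comp (Primrec.const 2) Primrec.fst) Primrec.snd)).of_iff ?_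
  rintro ⟨n, b⟩; simp

theorem GraphCE.right (A X : Cantor) : GraphCE (join A X) X := by
  refine (CE.comp (GraphCE.self (join A X)) (f := fun q : ℕ × Bool => (2 * q.1 + 1, q.2))
    (Primrec.pair (Primrec.succ.comp (Primrec.nat_mul.comp (Primrec.const 2) Primrec.fst))
      Primrec.snd)).of_iff ?_
  rintro ⟨n, b⟩; simp

/-- interleaving of strings -/
def joinL (σ τ : List Bool) : List Bool :=
  (List.range (2 * σ.length)).map
    (fun i => if i % 2 = 0 then σ.getD (i / 2) false else τ.getD (i / 2) false)

theorem seg_getD (X : Cantor) {k i : ℕ} (h : i < k) : (seg X k).getD i false = X i := by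
  rw [List.getD_eq_getElem?_getD, seg_getElem? _ _ _ h]; rfl

theorem joinL_seg (X Y : Cantor) (k : ℕ) : joinL (seg X k) (seg Y k) = seg (join X Y) (2 * k) := by
  unfold joinL
  rw [seg_length]
  conv_rhs => unfold seg
  refine List.map_congr_left fun i hi => ?_
  rw [List.mem_range] at hi
  rw [seg_getD _ (by omega), seg_getD _ (by omega)]
  rfl

theorem primrec_joinL : Primrec₂ joinL := by
  unfold joinL
  refine Primrec.list_map (Primrec.list_range.comp ?_) ?_
  · exact Primrec.nat_mul.comp (Primrec.const 2) (Primrec.list_length.comp Primrec.fst)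
  · refine Primrec.ite ?_ ?_ ?_
    · exact Primrec.eq.comp (Primrec.nat_mod.comp Primrec.snd (Primrec.const 2)) (Primrec.const 0)
    · exact (Primrec.list_getD false).comp (Primrec.fst.comp Primrec.fst)
        (Primrec.nat_div.comp Primrec.snd (Primrec.const 2))
    · exact (Primrec.list_getD false).comp (Primrec.snd.comp Primrec.fst)
        (Primrec.nat_div.comp Primrec.snd (Primrec.const 2))

/-- even and odd parts of a string -/
def evens (ρ : List Bool) : List Bool :=
  (List.range (ρ.length / 2)).map (fun i => ρ.getD (2 * i) false)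
def odds (ρ : List Bool) : List Bool :=
  (List.range (ρ.length / 2)).map (fun i => ρ.getD (2 * i + 1) false)

theorem evens_seg (X Y : Cantor) (m : ℕ) : evens (seg (join X Y) m) = seg X (m / 2) := by
  unfold evens
  rw [seg_length]
  conv_rhs => unfold seg
  refine List.map_congr_left fun i hi => ?_
  rw [List.mem_range] at hi
  rw [seg_getD _ (by omega), join_even]

theorem odds_seg (X Y : Cantor) (m : ℕ) : odds (seg (join X Y) m) = seg Y (m / 2) := by
  unfold odds
  rw [seg_length]
  conv_rhs => unfold seg
  refine List.map_congr_left fun i hi => ?_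
  rw [List.mem_range] at hi
  rw [seg_getD _ (by omega), join_odd]

theorem primrec_half : Primrec fun ρ : List Bool => ρ.length / 2 :=
  Primrec.nat_div.comp Primrec.list_length (Primrec.const 2)

theorem primrec_evens : Primrec evens := by
  unfold evens
  refine Primrec.list_map (Primrec.list_range.comp primrec_half) ?_
  exact (Primrec.list_getD false).comp Primrec.fst
    (Primrec.nat_mul.comp (Primrec.const 2) Primrec.snd)

theorem primrec_odds : Primrec odds := by
  unfold odds
  refine Primrec.list_map (Primrec.list_range.comp primrec_half) ?_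
  exact (Primrec.list_getD false).comp Primrec.fst
    (Primrec.succ.comp (Primrec.nat_mul.comp (Primrec.const 2) Primrec.snd))

theorem primrec_cnt {f : β → ℕ} {P : β → List Bool → Prop} (hf : Primrec f)
    (hP : PrimrecRel P) : Primrec fun b => cnt (f b) (P b) := by
  classical
  unfold cnt
  refine Primrec.list_length.comp ?_
  have h1 : Primrec₂ fun (L : List (List Bool)) (b : β) => L.filter (fun τ => P b τ) :=
    PrimrecRel.listFilter (R := fun τ b => P b τ) hP.swap
  convert! h1.comp (primrec_allS.comp hf) Primrec.id using 1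

theorem primrec_two_pow : Primrec fun n : ℕ => 2 ^ n := by
  have h : Primrec₂ fun (_ : ℕ) (m : ℕ) => 2 * m :=
    (Primrec.nat_mul.comp (Primrec.const 2) Primrec.snd)
  refine (Primrec.nat_rec₁ 1 h).of_eq fun n => ?_
  induction n with
  | zero => rfl
  | succ n ih => simp only [pow_succ]; rw [← ih]; simp only [mul_comm]

end

theorem lam_fubini {U : Set Cantor} (hU : MeasurableSet U) :
    lam U = ∫⁻ X, lam {Y | join X Y ∈ U} ∂lam := by
  conv_lhs => rw [← map_join]
  rw [Measure.map_apply measurable_join hU, Measure.prod_apply (measurable_join hU)]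
  rfl

theorem measurable_section {U : Set Cantor} (hU : MeasurableSet U) :
    Measurable fun X => lam {Y | join X Y ∈ U} :=
  measurable_measure_prodMk_left (measurable_join hU)

theorem two_pow_inv (n : ℕ) : (2⁻¹ : ENNReal) ^ n = (2 ^ n)⁻¹ := by
  rw [ENNReal.inv_pow]

/-- comparing counts and measures -/
theorem cnt_le_iff (n k : ℕ) (P : List Bool → Prop) :
    2 ^ n * cnt k P ≤ 2 ^ k ↔ lam {Y | P (seg Y k)} ≤ 2⁻¹ ^ n := by
  rw [lam_stage, two_pow_inv, two_pow_inv, ← div_eq_mul_inv, ENNReal.div_le_iff (by simp) (by simp),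
    mul_comm (_⁻¹), ← div_eq_mul_inv, ENNReal.le_div_iff_mul_le (by simp) (by simp)]
  norm_cast
  rw [mul_comm]

end Pool.Agent.Helper73.VL
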