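import Pool.Agent.Helper73.VL.Lamb

open MeasureTheory

namespace Pool.Agent.Helper73.VL

theorem seg_mono_pre (X : Cantor) {j k : ℕ} (h : j ≤ k) : seg X j <+: seg X k := seg_pre X h

/-- van Lambalgen's theorem, the direction from the components to the join. -/
theorem MLRandom.join {A X Y : Cantor} (hX : MLRandom A X) (hY : MLRandom (join A X) Y) :
    MLRandom A (join X Y) := by
  classical
  intro U hU hmem
  obtain ⟨R, hR, hmono, hUR⟩ := unifSigma_iff_stage.1 hU.1
  -- the count at stage k
  let c : ℕ × List Bool → List Bool → ℕ := fun q α =>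
    cnt q.2.length (fun τ => R (2 * q.1) (joinL q.2 τ) α)
  have hc : Primrec fun x : (ℕ × List Bool) × List Bool => c x.1 x.2 := by
    refine primrec_cnt (β := (ℕ × List Bool) × List Bool)
      (P := fun x τ => R (2 * x.1.1) (joinL x.1.2 τ) x.2)
      (Primrec.list_length.comp (Primrec.snd.comp Primrec.fst)) ?_
    refine hR.comp (Primrec.pair ?_ (Primrec.pair ?_ ?_))
    · exact Primrec.nat_mul.comp (Primrec.const 2)
        (Primrec.fst.comp (Primrec.fst.comp Primrec.fst))
    · exact primrec_joinL.comp (Primrec.snd.comp (Primrec.fst.comp Primrec.fst)) Primrec.snd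
    · exact Primrec.snd.comp Primrec.fst
  let V : ℕ → Set Cantor := fun n => {X' | ∃ k, 2 ^ k < 2 ^ n * c (n, seg X' k) (seg A (2 * k))}
  have hstage : ∀ n k (X' : Cantor), c (n, seg X' k) (seg A (2 * k)) =
      cnt k (fun τ => R (2 * n) (joinL (seg X' k) τ) (seg A (2 * k))) := by
    intro n k X'
    simp only [c, seg_length]
  have hset : ∀ n k (X' : Cantor), {Y' : Cantor | R (2 * n) (joinL (seg X' k) (seg Y' k))
      (seg A (2 * k))} = {Y' | R (2 * n) (seg (VL.join X' Y') (2 * k)) (seg A (2 * k))} := by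
    intro n k X'
    ext Y'
    simp only [Set.mem_ofPred_eq, joinL_seg]
  have hV : IsMLTest A V := by
    constructor
    · refine unifSigma_iff.2 ⟨fun q => 2 ^ q.2.length < 2 ^ q.1 * c q (seg A (2 * q.2.length)),
        ?_, fun n X' => ?_⟩
      · refine CE.subst_seg (GraphCE.self A)
          (P := fun (q : ℕ × List Bool) α => 2 ^ q.2.length < 2 ^ q.1 * c q α)
          (CE.of_primrec ?_) (f := fun q : ℕ × List Bool => 2 * q.2.length) ?_
        · refine Primrec.nat_lt.comp ?_ ?_
          · exact primrec_two_pow.comp (Primrec.list_length.comp (Primrec.snd.comp Primrec.fst))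
          · exact Primrec.nat_mul.comp (primrec_two_pow.comp (Primrec.fst.comp Primrec.fst)) hc
        · exact Primrec.nat_mul.comp (Primrec.const 2) (Primrec.list_length.comp Primrec.snd)
      · simp only [V, Set.mem_ofPred_eq, seg_length]
    · intro n
      have hmeas := hU.1.measurableSet (2 * n)
      have hsub : V n ⊆ {X' | (2⁻¹ : ENNReal) ^ n ≤ lam {Y' | VL.join X' Y' ∈ U (2 * n)}} := by
        rintro X' ⟨k, hk⟩
        rw [hstage] at hk
        have h1 := (not_iff_not.2 (cnt_le_iff n k
          (fun τ => R (2 * n) (joinL (seg X' k) τ) (seg A (2 * k))))).1 (not_le.2 hk)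
        rw [not_le] at h1
        refine h1.le.trans (measure_mono ?_)
        rw [hset]
        intro Y' hY'
        exact (hUR _ _).2 ⟨2 * k, hY'⟩
      have h2 := mul_meas_ge_le_lintegral (μ := lam) (measurable_section hmeas) ((2⁻¹ : ENNReal) ^ n)
      rw [← lam_fubini hmeas] at h2
      have h3 := (mul_le_mul_right (measure_mono hsub) ((2⁻¹ : ENNReal) ^ n)).trans
        (h2.trans (hU.2 (2 * n)))
      have h4 : (2⁻¹ : ENNReal) ^ (2 * n) = 2⁻¹ ^ n * 2⁻¹ ^ n := by rw [← pow_add, two_mul]
      rw [h4] at h3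
      exact (ENNReal.mul_le_mul_iff_right (by simp) (by simp)).1 h3
  obtain ⟨N, hN⟩ := hX.solovay hV
  -- the sections have small measure
  have hsec : ∀ n, N < n → lam {Y' | VL.join X Y' ∈ U (2 * n)} ≤ 2⁻¹ ^ n := by
    intro n hn
    have h1 : {Y' | VL.join X Y' ∈ U (2 * n)} =
        ⋃ k, {Y' : Cantor | R (2 * n) (seg (VL.join X Y') (2 * k)) (seg A (2 * k))} := by
      ext Y'
      rw [Set.mem_ofPred_eq, hUR, Set.mem_iUnion]
      constructor
      · rintro ⟨k, hk⟩
        exact ⟨k, hmono _ _ _ _ _ (seg_pre _ (by omega)) (seg_pre _ (by omega)) hk⟩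
      · rintro ⟨k, hk⟩
        exact ⟨2 * k, hk⟩
    rw [h1, Monotone.measure_iUnion]
    · refine iSup_le fun k => ?_
      rw [← hset]
      refine (cnt_le_iff n k (fun τ => R (2 * n) (joinL (seg X k) τ) (seg A (2 * k)))).1 ?_
      rw [← hstage]
      exact not_lt.1 fun h => hN n hn ⟨k, h⟩
    · intro j k hjk Y' hY'
      exact hmono _ _ _ _ _ (seg_pre _ (by omega)) (seg_pre _ (by omega)) hY'
  -- the test for Y
  refine hY (fun j => {Y' | VL.join X Y' ∈ U (2 * (N + 1 + j))}) ⟨?_, fun j => ?_⟩ ?_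
  · refine unifSigma_iff.2 ⟨fun q => R (2 * (N + 1 + q.1)) (joinL (seg X q.2.length) q.2)
      (seg A (2 * q.2.length)), ?_, fun j Y' => ?_⟩
    · refine CE.subst_seg (GraphCE.left A X) (P := fun (q : ℕ × List Bool) α =>
        R (2 * (N + 1 + q.1)) (joinL (seg X q.2.length) q.2) α) ?_
        (f := fun q : ℕ × List Bool => 2 * q.2.length)
        (Primrec.nat_mul.comp (Primrec.const 2) (Primrec.list_length.comp Primrec.snd))
      refine CE.subst_seg (GraphCE.right A X) (P := fun (q : (ℕ × List Bool) × List Bool) σ =>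
        R (2 * (N + 1 + q.1.1)) (joinL σ q.1.2) q.2) ?_
        (f := fun q : (ℕ × List Bool) × List Bool => q.1.2.length)
        (Primrec.list_length.comp (Primrec.snd.comp Primrec.fst))
      refine CE.of_primrec (hR.comp (Primrec.pair ?_ (Primrec.pair ?_ ?_)))
      · exact Primrec.nat_mul.comp (Primrec.const 2) (Primrec.nat_add.comp (Primrec.const (N + 1))
          (Primrec.fst.comp (Primrec.fst.comp Primrec.fst)))
      · exact primrec_joinL.comp Primrec.snd
          (Primrec.snd.comp (Primrec.fst.comp Primrec.fst))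
      · exact Primrec.snd.comp Primrec.fst
    · rw [Set.mem_ofPred_eq, hUR]
      simp only [seg_length, joinL_seg]
      constructor
      · rintro ⟨k, hk⟩
        exact ⟨k, hmono _ _ _ _ _ (seg_pre _ (by omega)) (seg_pre _ (by omega)) hk⟩
      · rintro ⟨k, hk⟩
        exact ⟨2 * k, hk⟩
  · refine (hsec _ (by omega)).trans ?_
    rw [two_pow_inv, two_pow_inv]
    exact ENNReal.inv_le_inv.2 (pow_le_pow_right₀ (by norm_num) (by omega))
  · rw [Set.mem_iInter] at hmem ⊢
    intro j
    exact hmem _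

/-- van Lambalgen's theorem, the direction from the join to the second component. -/
theorem MLRandom.right_rel {A X Y : Cantor} (h : MLRandom A (VL.join X Y)) :
    MLRandom (VL.join A X) Y := by
  classical
  intro U hU hmem
  obtain ⟨R, hR, hmono, hUR⟩ := unifSigma_iff_stage.1 hU.1
  -- `W n σ τ α`: σ an initial segment of Z, τ of Y', α of A, all of length k
  let W : ℕ → List Bool → List Bool → List Bool → Prop := fun n σ τ α =>
    (2 ^ n * cnt σ.length (fun τ' => R n τ' (joinL α σ)) ≤ 2 ^ σ.length) ∧ R n τ (joinL α σ)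
  have hW : PrimrecPred fun x : (ℕ × List Bool) × List Bool =>
      W x.1.1 (evens x.1.2) (odds x.1.2) x.2 := by
    have e1 : Primrec fun x : (ℕ × List Bool) × List Bool => evens x.1.2 :=
      primrec_evens.comp (Primrec.snd.comp Primrec.fst)
    refine PrimrecPred.and ?_ ?_
    · refine Primrec.nat_le.comp ?_ (primrec_two_pow.comp (Primrec.list_length.comp e1))
      refine Primrec.nat_mul.comp (primrec_two_pow.comp (Primrec.fst.comp Primrec.fst)) ?_
      refine primrec_cnt (β := (ℕ × List Bool) × List Bool)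
        (P := fun x τ' => R x.1.1 τ' (joinL x.2 (evens x.1.2)))
        (Primrec.list_length.comp e1) ?_
      refine hR.comp (Primrec.pair ?_ (Primrec.pair Primrec.snd ?_))
      · exact Primrec.fst.comp (Primrec.fst.comp Primrec.fst)
      · exact primrec_joinL.comp (Primrec.snd.comp Primrec.fst) (e1.comp Primrec.fst)
    · refine hR.comp (Primrec.pair (Primrec.fst.comp Primrec.fst) (Primrec.pair ?_ ?_))
      · exact primrec_odds.comp (Primrec.snd.comp Primrec.fst)
      · exact primrec_joinL.comp Primrec.snd e1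
  let T : ℕ → Set Cantor := fun n => {Q | ∃ m, W n (evens (seg Q m)) (odds (seg Q m)) (seg A (m / 2))}
  have hT : ∀ n (Z Y' : Cantor), VL.join Z Y' ∈ T n ↔
      ∃ k, W n (seg Z k) (seg Y' k) (seg A k) := by
    intro n Z Y'
    simp only [T, Set.mem_ofPred_eq, evens_seg, odds_seg]
    constructor
    · rintro ⟨m, hm⟩
      exact ⟨m / 2, hm⟩
    · rintro ⟨k, hk⟩
      exact ⟨2 * k, by simpa using hk⟩
  have hTs : UnifSigma A T := by
    refine unifSigma_iff.2 ⟨fun q => W q.1 (evens q.2) (odds q.2) (seg A (q.2.length / 2)), ?_,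
      fun n Q => ?_⟩
    · exact CE.subst_seg (GraphCE.self A) (P := fun (q : ℕ × List Bool) α =>
        W q.1 (evens q.2) (odds q.2) α) (CE.of_primrec hW)
        (f := fun q : ℕ × List Bool => q.2.length / 2) (primrec_half.comp Primrec.snd)
    · simp only [T, Set.mem_ofPred_eq, seg_length]
  -- sections
  have hcond : ∀ n k (Z : Cantor),
      (2 ^ n * cnt (seg Z k).length (fun τ' => R n τ' (joinL (seg A k) (seg Z k))) ≤
        2 ^ (seg Z k).length) ↔
      lam {Y' | R n (seg Y' k) (joinL (seg A k) (seg Z k))} ≤ 2⁻¹ ^ n := by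
    intro n k Z
    rw [seg_length]
    exact cnt_le_iff n k _
  have hsmono : ∀ n (Z : Cantor), ∀ j k, j ≤ k →
      {Y' | R n (seg Y' j) (joinL (seg A j) (seg Z j))} ⊆
      {Y' | R n (seg Y' k) (joinL (seg A k) (seg Z k))} := by
    intro n Z j k hjk Y' hY'
    simp only [Set.mem_ofPred_eq, joinL_seg] at hY' ⊢
    exact hmono _ _ _ _ _ (seg_pre _ hjk) (seg_pre _ (by omega)) hY'
  have hsec : ∀ n (Z : Cantor), lam {Y' | VL.join Z Y' ∈ T n} ≤ 2⁻¹ ^ n := by
    intro n Z
    have h1 : {Y' | VL.join Z Y' ∈ T n} = ⋃ k, {Y' : Cantor |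
        W n (seg Z k) (seg Y' k) (seg A k)} := by
      ext Y'
      rw [Set.mem_ofPred_eq, hT, Set.mem_iUnion]
      rfl
    rw [h1, Directed.measure_iUnion]
    · refine iSup_le fun k => ?_
      by_cases hk : 2 ^ n * cnt (seg Z k).length (fun τ' => R n τ' (joinL (seg A k) (seg Z k))) ≤
        2 ^ (seg Z k).length
      · refine (measure_mono ?_).trans ((hcond n k Z).1 hk)
        intro Y' hY'
        exact hY'.2
      · have : {Y' : Cantor | W n (seg Z k) (seg Y' k) (seg A k)} = ∅ := by
          ext Y'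
          simp only [Set.mem_ofPred_eq, Set.mem_empty_iff_false, iff_false]
          exact fun h => hk h.1
        rw [this]; simp
    · have hle : ∀ j k, j ≤ k → ∀ Z : Cantor,
          (2 ^ n * cnt (seg Z k).length (fun τ' => R n τ' (joinL (seg A k) (seg Z k))) ≤
            2 ^ (seg Z k).length) →
          (2 ^ n * cnt (seg Z j).length (fun τ' => R n τ' (joinL (seg A j) (seg Z j))) ≤
            2 ^ (seg Z j).length) := by
        intro j k hjk Z hk
        rw [hcond] at hk ⊢
        exact (measure_mono (hsmono n Z j k hjk)).trans hk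
      intro j k
      rcases le_total j k with hjk | hjk
      · by_cases hk : 2 ^ n * cnt (seg Z k).length (fun τ' => R n τ' (joinL (seg A k) (seg Z k))) ≤
          2 ^ (seg Z k).length
        · refine ⟨k, fun Y' hY' => ⟨hk, hsmono n Z j k hjk hY'.2⟩, fun Y' hY' => hY'⟩
        · exact ⟨j, fun Y' hY' => hY', fun Y' hY' => absurd hY'.1 hk⟩
      · by_cases hk : 2 ^ n * cnt (seg Z j).length (fun τ' => R n τ' (joinL (seg A j) (seg Z j))) ≤
          2 ^ (seg Z j).length
        · refine ⟨j, fun Y' hY' => hY', fun Y' hY' => ⟨hk, hsmono n Z k j hjk hY'.2⟩⟩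
        · exact ⟨k, fun Y' hY' => absurd hY'.1 hk, fun Y' hY' => hY'⟩
  refine h T ⟨hTs, fun n => ?_⟩ ?_
  · rw [lam_fubini (hTs.measurableSet n)]
    calc ∫⁻ Z, lam {Y' | VL.join Z Y' ∈ T n} ∂lam ≤ ∫⁻ _, (2⁻¹ : ENNReal) ^ n ∂lam :=
          lintegral_mono fun Z => hsec n Z
      _ = 2⁻¹ ^ n := by simp
  · rw [Set.mem_iInter] at hmem ⊢
    intro n
    rw [hT]
    obtain ⟨k, hk⟩ := (hUR n Y).1 (hmem n)
    refine ⟨k, ?_, ?_⟩
    · rw [hcond]
      refine (measure_mono ?_).trans (hU.2 n)
      intro Y' hY'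
      simp only [Set.mem_ofPred_eq, joinL_seg] at hY'
      exact (hUR n Y').2 ⟨2 * k, hmono _ _ _ _ _ (seg_pre _ (by omega)) (List.prefix_refl _) hY'⟩
    · rw [joinL_seg]
      exact hmono _ _ _ _ _ (List.prefix_refl _) (seg_pre _ (by omega)) hk

end Pool.Agent.Helper73.VL
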