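import Pool.Agent.Helper73.VL.Comp2

open MeasureTheory

namespace Pool.Agent.Helper73.VL

instance : IsProbabilityMeasure lam := by unfold lam; infer_instance

theorem mem_cyl_iff (σ : List Bool) (X : Cantor) : X ∈ cyl σ ↔ seg X σ.length = σ := by
  constructor
  · intro h
    apply List.ext_getElem (by simp)
    intro i h1 h2
    simp only [seg, List.getElem_map, List.getElem_range]
    exact h i h2
  · intro h i hi
    have : (seg X σ.length)[i]? = σ[i]? := by rw [h]
    rw [seg_getElem? _ _ _ hi, List.getElem?_eq_getElem hi] at this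
    exact Option.some.inj this

theorem cyl_eq_pi (σ : List Bool) :
    cyl σ = Set.pi (↑(Finset.range σ.length)) (fun i => {σ.getD i false}) := by
  ext X
  simp only [cyl, Set.mem_ofPred_eq, Set.mem_pi, Finset.coe_range, Set.mem_Iio,
    Set.mem_singleton_iff]
  constructor
  · intro h i hi
    rw [h i hi]; simp [List.getD_eq_getElem?_getD, hi]
  · intro h i hi
    rw [h i hi]; simp [List.getD_eq_getElem?_getD, hi]

theorem measurableSet_cyl (σ : List Bool) : MeasurableSet (cyl σ) := by
  rw [cyl_eq_pi]
  exact MeasurableSet.pi (Finset.countable_toSet _) (fun _ _ => MeasurableSet.singleton _)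

theorem lam_cyl (σ : List Bool) : lam (cyl σ) = 2⁻¹ ^ σ.length := by
  rw [cyl_eq_pi, lam, Measure.infinitePi_pi _ (fun _ _ => MeasurableSet.singleton _)]
  simp [coin_singleton]

/-- all strings of length `k` -/
def allS : ℕ → List (List Bool)
  | 0 => [[]]
  | (k + 1) => (allS k).flatMap (fun τ => [τ ++ [false], τ ++ [true]])

theorem mem_allS (k : ℕ) (τ : List Bool) : τ ∈ allS k ↔ τ.length = k := by
  induction k generalizing τ with
  | zero => simp [allS]
  | succ k ih =>
    simp only [allS, List.mem_flatMap, ih, List.mem_cons, List.not_mem_nil, or_false]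
    constructor
    · rintro ⟨ρ, hρ, rfl | rfl⟩ <;> simp [hρ]
    · intro h
      have hne : τ ≠ [] := by rintro rfl; simp at h
      refine ⟨τ.dropLast, by simp [h], ?_⟩
      have := List.dropLast_append_getLast hne
      cases hb : τ.getLast hne
      · left; rw [← hb]; exact this.symm
      · right; rw [← hb]; exact this.symm

theorem nodup_allS (k : ℕ) : (allS k).Nodup := by
  induction k with
  | zero => simp [allS]
  | succ k ih =>
    rw [allS, List.nodup_flatMap]
    refine ⟨fun τ _ => by simp, ?_⟩
    refine ih.imp ?_
    intro a b hab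
    simp only [Function.onFun, List.disjoint_left, List.mem_cons, List.not_mem_nil, or_false]
    rintro c (rfl | rfl) (h | h)
    · exact hab (List.append_inj_left' h rfl)
    · simp at h
    · simp at h
    · exact hab (List.append_inj_left' h rfl)

theorem primrec_allS : Primrec allS := by
  have h : Primrec₂ fun (_ : ℕ) (L : List (List Bool)) =>
      L.flatMap (fun τ => [τ ++ [false], τ ++ [true]]) := by
    refine Primrec.list_flatMap Primrec.snd ?_
    refine Primrec.list_cons.comp ?_ (Primrec.list_cons.comp ?_ (Primrec.const []))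
    · exact Primrec.list_append.comp Primrec.snd (Primrec.const [false])
    · exact Primrec.list_append.comp Primrec.snd (Primrec.const [true])
  refine (Primrec.nat_rec₁ [[]] h).of_eq fun n => ?_
  induction n with
  | zero => rfl
  | succ n ih => simp only [allS]; rw [← ih]

open scoped Classical in
/-- number of strings of length `k` with property `P` -/
noncomputable def cnt (k : ℕ) (P : List Bool → Prop) : ℕ := ((allS k).filter (fun τ => P τ)).length

open scoped Classical in
theorem lam_stage (k : ℕ) (P : List Bool → Prop) :
    lam {Y | P (seg Y k)} = cnt k P * 2⁻¹ ^ k := by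
  have h1 : {Y : Cantor | P (seg Y k)} =
      ⋃ τ ∈ ((allS k).filter (fun τ => P τ)).toFinset, cyl τ := by
    ext Y
    simp only [Set.mem_ofPred_eq, List.mem_toFinset, List.mem_filter, decide_eq_true_eq,
      Set.mem_iUnion, exists_prop, mem_cyl_iff, mem_allS]
    constructor
    · intro h
      exact ⟨seg Y k, ⟨by simp, h⟩, by simp⟩
    · rintro ⟨τ, ⟨h1, h2⟩, h3⟩
      rw [h1] at h3
      rwa [h3]
  rw [h1, measure_biUnion_finset]
  · rw [Finset.sum_congr rfl (g := fun _ => (2⁻¹ : ENNReal) ^ k)]
    · rw [Finset.sum_const, nsmul_eq_mul, List.toFinset_card_of_nodup]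
      · rfl
      · exact (nodup_allS k).filter _
    · intro τ hτ
      simp only [List.mem_toFinset, List.mem_filter, mem_allS] at hτ
      rw [lam_cyl, hτ.1]
  · intro τ hτ ρ hρ hne
    simp only [Finset.mem_coe, List.mem_toFinset, List.mem_filter, mem_allS] at hτ hρ
    refine Set.disjoint_left.2 fun Y h1 h2 => hne ?_
    rw [mem_cyl_iff] at h1 h2
    rw [← h1, ← h2, hτ.1, hρ.1]
  · intro τ _
    exact measurableSet_cyl τ

theorem measurableSet_stage (k : ℕ) (P : List Bool → Prop) :
    MeasurableSet {Y : Cantor | P (seg Y k)} := by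
  have h1 : {Y : Cantor | P (seg Y k)} = ⋃ τ : {τ : List Bool // τ.length = k ∧ P τ}, cyl τ.1 := by
    ext Y
    simp only [Set.mem_ofPred_eq, Set.mem_iUnion, mem_cyl_iff]
    constructor
    · intro h
      exact ⟨⟨seg Y k, by simp, h⟩, by simp⟩
    · rintro ⟨⟨τ, h1, h2⟩, h3⟩
      simp only [h1] at h3
      rwa [h3]
  rw [h1]
  exact MeasurableSet.iUnion fun τ => measurableSet_cyl _

@[simp] theorem join_even (X Y : Cantor) (n : ℕ) : join X Y (2 * n) = X n := by
  simp [join]

@[simp] theorem join_odd (X Y : Cantor) (n : ℕ) : join X Y (2 * n + 1) = Y n := by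
  have : (2 * n + 1) / 2 = n := by omega
  simp [join, Nat.add_mod, this]

theorem measurable_join : Measurable (fun q : Cantor × Cantor => join q.1 q.2) := by
  refine measurable_pi_lambda _ fun n => ?_
  unfold join
  by_cases h : n % 2 = 0
  · simp only [h, if_true]; fun_prop
  · simp only [h, if_false]; fun_prop

theorem map_join : Measure.map (fun q : Cantor × Cantor => join q.1 q.2) (lam.prod lam) = lam := by
  classical
  refine Measure.eq_infinitePi _ fun s t ht => ?_
  rw [Measure.map_apply measurable_join
    (MeasurableSet.pi (Finset.countable_toSet _) (fun i _ => ht i))]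
  let se : Finset ℕ := (s.filter (fun n => n % 2 = 0)).image (fun n => n / 2)
  let so : Finset ℕ := (s.filter (fun n => ¬ n % 2 = 0)).image (fun n => n / 2)
  have h1 : (fun q : Cantor × Cantor => join q.1 q.2) ⁻¹' (Set.pi (↑s) t) =
      (Set.pi (↑se) (fun i => t (2 * i))) ×ˢ (Set.pi (↑so) (fun i => t (2 * i + 1))) := by
    ext ⟨X, Y⟩
    simp only [Set.mem_preimage, Set.mem_pi, Finset.mem_coe, Set.mem_prod, se, so,
      Finset.mem_image, Finset.mem_filter]
    constructor
    · intro h
      constructor
      · rintro i ⟨n, ⟨hn, hn2⟩, rfl⟩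
        have := h n hn
        have h3 : n = 2 * (n / 2) := by omega
        rw [h3, join_even] at this
        exact this
      · rintro i ⟨n, ⟨hn, hn2⟩, rfl⟩
        have := h n hn
        have h3 : n = 2 * (n / 2) + 1 := by omega
        rw [h3, join_odd] at this
        exact this
    · rintro ⟨h1, h2⟩ n hn
      by_cases h3 : n % 2 = 0
      · have := h1 (n / 2) ⟨n, ⟨hn, h3⟩, rfl⟩
        have h4 : n = 2 * (n / 2) := by omega
        rw [h4, join_even]
        exact this
      · have := h2 (n / 2) ⟨n, ⟨hn, h3⟩, rfl⟩
        have h4 : n = 2 * (n / 2) + 1 := by omega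
        rw [h4, join_odd]
        exact this
  rw [h1, Measure.prod_prod, lam, Measure.infinitePi_pi _ (fun _ _ => ht _),
    Measure.infinitePi_pi _ (fun _ _ => ht _), Finset.prod_image, Finset.prod_image,
    ← Finset.prod_filter_mul_prod_filter_not s (fun n => n % 2 = 0)]
  · congr 1
    · refine Finset.prod_congr rfl fun n hn => ?_
      rw [Finset.mem_filter] at hn
      have h4 : 2 * (n / 2) = n := by omega
      rw [h4]
    · refine Finset.prod_congr rfl fun n hn => ?_
      rw [Finset.mem_filter] at hn
      have h4 : 2 * (n / 2) + 1 = n := by omega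
      rw [h4]
  · intro a ha b hb hab
    simp only [Finset.coe_filter, Set.mem_ofPred_eq] at ha hb hab
    omega
  · intro a ha b hb hab
    simp only [Finset.coe_filter, Set.mem_ofPred_eq] at ha hb hab
    omega

/-- Coordinate selection along `g` followed by translation by `D`. -/
def trans (g : ℕ → ℕ) (D : Cantor) (Z : Cantor) : Cantor := fun i => xor (Z (g i)) (D i)

theorem coin_xor (d : Bool) (t : Set Bool) : coin {b | xor b d ∈ t} = coin t := by
  have h : Measure.map (fun b => xor b d) coin = coin := by
    have hm : Measurable (fun b : Bool => xor b d) := measurable_from_top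
    cases d
    · simp
    · simp only [coin, Measure.map_smul, Measure.map_add _ _ hm, Measure.map_dirac' hm]
      simp [add_comm]
  conv_rhs => rw [← h]
  rw [Measure.map_apply measurable_from_top (by trivial)]
  rfl

theorem measurable_trans (g : ℕ → ℕ) (D : Cantor) : Measurable (trans g D) := by
  refine measurable_pi_lambda _ fun n => ?_
  unfold trans
  exact (measurable_from_top (f := fun b : Bool => xor b (D n))).comp (measurable_pi_apply _)

theorem map_trans {g : ℕ → ℕ} (hg : Function.Injective g) (D : Cantor) :
    Measure.map (trans g D) lam = lam := by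
  classical
  refine Measure.eq_infinitePi _ fun s t ht => ?_
  rw [Measure.map_apply (measurable_trans g D)
    (MeasurableSet.pi (Finset.countable_toSet _) (fun i _ => ht i))]
  have h1 : (trans g D) ⁻¹' (Set.pi (↑s) t) =
      Set.pi (↑(s.image g)) (fun j => {b | xor b (D (Function.invFun g j)) ∈
        t (Function.invFun g j)}) := by
    ext Z
    simp only [Set.mem_preimage, Set.mem_pi, Finset.mem_coe, trans, Finset.mem_image,
      forall_exists_index, and_imp, forall_apply_eq_imp_iff₂, Function.leftInverse_invFun hg _,
      Set.mem_ofPred_eq]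
  rw [h1, lam, Measure.infinitePi_pi _ (fun _ _ => by trivial), Finset.prod_image
    (fun a _ b _ h => hg h)]
  refine Finset.prod_congr rfl fun i _ => ?_
  rw [Function.leftInverse_invFun hg i, coin_xor]

end Pool.Agent.Helper73.VL
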