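import Pool.Agent.Helper73.VL.Lamb2

open MeasureTheory

namespace Pool.Agent.Helper73.VL

theorem countable_natPrimrec : Set.Countable {f : ℕ → ℕ | Nat.Primrec f} := by
  classical
  have h : {f : ℕ → ℕ | Nat.Primrec f} ⊆ Set.range
      (fun (c : Nat.Partrec.Code) (n : ℕ) => if h : (c.eval n).Dom then (c.eval n).get h else 0) := by
    intro f hf
    obtain ⟨c, hc⟩ := Nat.Partrec.Code.exists_code.1 (Nat.Partrec.of_primrec hf)
    refine ⟨c, ?_⟩
    funext n
    simp [hc]
  exact (Set.countable_range _).mono h

theorem countable_primrecPred {α : Type*} [Primcodable α] :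
    Set.Countable {p : α → Prop | PrimrecPred p} := by
  classical
  have h : {p : α → Prop | PrimrecPred p} ⊆
      (fun (f : ℕ → ℕ) (a : α) => f (Encodable.encode a) = Encodable.encode (some true)) ''
        {f : ℕ → ℕ | Nat.Primrec f} := by
    intro p hp
    have h1 : Primrec fun a => decide (p a) := hp.decide
    refine ⟨_, h1, ?_⟩
    funext a
    by_cases h : p a <;> simp [h]
  exact (countable_natPrimrec.image _).mono h

theorem countable_unifSigma (O : Cantor) : Set.Countable {U : ℕ → Set Cantor | UnifSigma O U} := by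
  have h : {U : ℕ → Set Cantor | UnifSigma O U} ⊆
      (fun (p : ℕ × List Bool × List Bool → Prop) (n : ℕ) =>
        {X : Cantor | ∃ k, p (n, seg X k, seg O k)}) ''
        {p : ℕ × List Bool × List Bool → Prop | PrimrecPred p} := by
    intro U hU
    obtain ⟨R, hR, -, h⟩ := unifSigma_iff_stage.1 hU
    refine ⟨fun x => R x.1 x.2.1 x.2.2, hR, ?_⟩
    funext n
    ext X
    rw [h]; rfl
  exact ((countable_primrecPred).image _).mono h

theorem ae_mlRandom (O : Cantor) : ∀ᵐ X ∂lam, MLRandom O X := by
  have h1 : ∀ U ∈ {U : ℕ → Set Cantor | IsMLTest O U}, ∀ᵐ X ∂lam, X ∉ ⋂ n, U n := by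
    intro U hU
    rw [ae_iff]
    simp only [not_not, Set.ofPred_mem_eq]
    refine le_antisymm ?_ zero_le
    refine ge_of_tendsto' (x := Filter.atTop) (f := fun n : ℕ => (2⁻¹ : ENNReal) ^ n) ?_ ?_
    · exact ENNReal.tendsto_pow_atTop_nhds_zero_of_lt_one (by norm_num)
    · intro n
      exact (measure_mono (Set.iInter_subset _ n)).trans (hU.2 n)
  have h2 : Set.Countable {U : ℕ → Set Cantor | IsMLTest O U} :=
    (countable_unifSigma O).mono fun U hU => hU.1
  filter_upwards [(ae_ball_iff h2).2 h1] with X hX U hU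
  exact hX U hU

/-- density lemma -/
theorem exists_dense_cyl {E : Set Cantor} (hE : lam E ≠ 0) :
    ∃ σ, 2⁻¹ * lam (cyl σ) < lam (E ∩ cyl σ) := by
  by_contra hcon
  push Not at hcon
  -- for open sets
  have hopen : ∀ O : Set Cantor, IsOpen O → lam (E ∩ O) ≤ 2⁻¹ * lam O := by
    intro O hO
    let Ok : ℕ → Set Cantor := fun k => {X | cyl (seg X k) ⊆ O}
    have hmemcyl : ∀ (X : Cantor) k, X ∈ cyl (seg X k) := by
      intro X k; rw [mem_cyl_iff]; simp
    have hsub : ∀ (X : Cantor) j k, j ≤ k → cyl (seg X k) ⊆ cyl (seg X j) := by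
      intro X j k hjk Y hY
      rw [mem_cyl_iff, seg_length] at hY ⊢
      rw [← seg_take Y j k hjk, hY, seg_take X j k hjk]
    have hmono : Monotone Ok := by
      intro j k hjk X hX
      exact (hsub X j k hjk).trans hX
    have hU : O = ⋃ k, Ok k := by
      ext X
      rw [Set.mem_iUnion]
      constructor
      · intro hX
        obtain ⟨I, u, hu, hsubO⟩ := isOpen_pi_iff.1 hO X hX
        refine ⟨I.sup id + 1, fun Y hY => hsubO ?_⟩
        intro i hi
        have hi' : i < I.sup id + 1 := Nat.lt_succ_of_le (Finset.le_sup (f := id) hi)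
        have h3 := hY i (by simpa using hi')
        have h4 : (seg X (I.sup id + 1))[i]'(by simpa using hi') = X i := by
          simp [seg]
        rw [h4] at h3
        rw [h3]
        exact (hu i hi).2
      · rintro ⟨k, hk⟩
        exact hk (hmemcyl X k)
    have hstep : ∀ k, lam (E ∩ Ok k) ≤ 2⁻¹ * lam (Ok k) := by
      classical
      intro k
      have h5 : Ok k = ⋃ τ ∈ ((allS k).filter (fun τ => cyl τ ⊆ O)).toFinset, cyl τ := by
        ext Y
        simp only [Ok, Set.mem_ofPred_eq, List.mem_toFinset, List.mem_filter, decide_eq_true_eq,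
          Set.mem_iUnion, exists_prop, mem_cyl_iff, mem_allS]
        constructor
        · intro h
          exact ⟨seg Y k, ⟨by simp, h⟩, by simp⟩
        · rintro ⟨τ, ⟨h1, h2⟩, h3⟩
          rw [h1] at h3
          rwa [h3]
      have h6 : lam (Ok k) = ∑ τ ∈ ((allS k).filter (fun τ => cyl τ ⊆ O)).toFinset,
          lam (cyl τ) := by
        rw [h5, measure_biUnion_finset]
        · intro τ hτ ρ hρ hne
          simp only [Finset.mem_coe, List.mem_toFinset, List.mem_filter, mem_allS] at hτ hρ
          refine Set.disjoint_left.2 fun Y h1 h2 => hne ?_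
          rw [mem_cyl_iff] at h1 h2
          rw [← h1, ← h2, hτ.1, hρ.1]
        · intro τ _
          exact measurableSet_cyl τ
      rw [h6, Finset.mul_sum]
      calc lam (E ∩ Ok k) ≤ lam (⋃ τ ∈ ((allS k).filter (fun τ => cyl τ ⊆ O)).toFinset,
            E ∩ cyl τ) := by
            refine measure_mono ?_
            rw [h5, Set.inter_iUnion₂]
        _ ≤ ∑ τ ∈ ((allS k).filter (fun τ => cyl τ ⊆ O)).toFinset, lam (E ∩ cyl τ) :=
            measure_biUnion_finset_le _ _
        _ ≤ _ := Finset.sum_le_sum fun τ _ => hcon τ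
    have h7 : E ∩ O = ⋃ k, E ∩ Ok k := by
      rw [← Set.inter_iUnion, ← hU]
    rw [h7, Monotone.measure_iUnion]
    · refine iSup_le fun k => (hstep k).trans ?_
      gcongr
      rw [hU]
      exact Set.subset_iUnion Ok k
    · intro j k hjk
      exact Set.inter_subset_inter_right _ (hmono hjk)
  have hreg : ∀ r, lam E < r → lam E ≤ 2⁻¹ * r := by
    intro r hr
    obtain ⟨O, hEO, hO, hlt⟩ := Set.exists_isOpen_lt_of_lt E r hr
    have := hopen O hO
    rw [Set.inter_eq_left.2 hEO] at this
    exact this.trans (by gcongr)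
  have hfin : lam E ≠ ⊤ := measure_ne_top _ _
  have h8 : lam E ≤ 2⁻¹ * lam E := by
    refine le_of_forall_gt_imp_ge_of_dense fun a ha => ?_
    have h2 : lam E < 2 * a := by
      have := (ENNReal.mul_lt_mul_iff_right (a := 2) (by norm_num) (by norm_num)).2 ha
      rwa [← mul_assoc, ENNReal.mul_inv_cancel (by norm_num) (by norm_num), one_mul] at this
    have h3 := hreg _ h2
    rwa [← mul_assoc, ENNReal.inv_mul_cancel (by norm_num) (by norm_num), one_mul] at h3
  have h9 : 2⁻¹ * lam E < lam E := by
    rw [mul_comm, ← div_eq_mul_inv]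
    exact ENNReal.half_lt_self hE hfin
  exact absurd h8 (not_le.2 h9)

theorem computable_of_graphCE {C : Cantor} (h : GraphCE (fun _ => false) C) : Computable C := by
  have h1 := h.tred
  have h2 : Partrec (chi C) := by
    refine RecursiveIn.partrec_of_oracle ?_ h1
    intro g hg
    rw [Set.mem_singleton_iff] at hg
    subst hg
    exact (Computable.const 0)
  have h3 : Computable fun n => (C n).toNat := h2
  have h4 : Primrec fun m : ℕ => decide (m = 1) :=
    (PrimrecRel.decide Primrec.eq).comp Primrec.id (Primrec.const 1)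
  refine (h4.to_comp.comp h3).of_eq fun n => ?_
  cases C n <;> simp

/-- The set computing a noncomputable `C` is null (de Leeuw, Moore, Shannon, Shapiro; Sacks). -/
theorem null_upper_cone {C : Cantor} (hC : ¬ Computable C) : lam {X | GraphCE X C} = 0 := by
  classical
  -- countable union over the normal forms
  let E : (ℕ × Bool × List Bool → Prop) → Set Cantor := fun S =>
    {X | ∀ q : ℕ × Bool, C q.1 = q.2 ↔ ∃ k, S (q.1, q.2, seg X k)}
  have h1 : {X | GraphCE X C} ⊆ ⋃ S ∈ {S : ℕ × Bool × List Bool → Prop | PrimrecPred S ∧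
      ∀ n b σ τ, σ <+: τ → S (n, b, σ) → S (n, b, τ)}, E S := by
    rintro X ⟨S, hS, hm, hX⟩
    simp only [Set.mem_iUnion, exists_prop]
    refine ⟨fun x => S (x.1, x.2.1) x.2.2, ⟨?_, fun n b σ τ h => hm _ _ _ h⟩, hX⟩
    exact hS.comp (Primrec.pair Primrec.fst (Primrec.fst.comp Primrec.snd))
      (Primrec.snd.comp Primrec.snd)
  refine measure_mono_null h1 ?_
  have hcount : Set.Countable {S : ℕ × Bool × List Bool → Prop | PrimrecPred S ∧
      ∀ n b σ τ, σ <+: τ → S (n, b, σ) → S (n, b, τ)} :=
    (countable_primrecPred (α := ℕ × Bool × List Bool)).mono fun S hS => hS.1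
  rw [measure_biUnion_null_iff hcount]
  rintro S ⟨hS, hm⟩
  by_contra hpos
  obtain ⟨σ, hσ⟩ := exists_dense_cyl hpos
  apply hC
  apply computable_of_graphCE
  set m := σ.length with hmdef
  -- the vote
  have hvote : ∀ q : ℕ × Bool, C q.1 = q.2 ↔ ∃ k, 2 ^ k < 2 ^ (m + 1) *
      cnt k (fun τ => τ.take m = σ ∧ S (q.1, q.2, τ)) := by
    intro q
    have hcy : ∀ k, (2 ^ k < 2 ^ (m + 1) * cnt k (fun τ => τ.take m = σ ∧ S (q.1, q.2, τ))) ↔
        2⁻¹ * lam (cyl σ) < lam {X : Cantor | (seg X k).take m = σ ∧ S (q.1, q.2, seg X k)} := by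
      intro k
      have := not_iff_not.2 (cnt_le_iff (m + 1) k (fun τ => τ.take m = σ ∧ S (q.1, q.2, τ)))
      rw [not_le, not_le] at this
      rw [this, lam_cyl, pow_succ, mul_comm]
    constructor
    · intro hq
      by_contra hcon
      push Not at hcon
      have h2 : E S ∩ cyl σ ⊆ ⋃ k, {X : Cantor | (seg X (m + k)).take m = σ ∧
          S (q.1, q.2, seg X (m + k))} := by
        rintro X ⟨hX, hXσ⟩
        obtain ⟨k, hk⟩ := (hX q).1 hq
        rw [Set.mem_iUnion]
        refine ⟨k, ?_, hm _ _ _ _ (seg_pre _ (by omega)) hk⟩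
        rw [seg_take _ _ _ (by omega)]
        exact (mem_cyl_iff _ _).1 hXσ
      have h3 : lam (⋃ k, {X : Cantor | (seg X (m + k)).take m = σ ∧
          S (q.1, q.2, seg X (m + k))}) ≤ 2⁻¹ * lam (cyl σ) := by
        rw [Monotone.measure_iUnion]
        · refine iSup_le fun k => ?_
          exact not_lt.1 fun h => absurd ((hcy _).2 h) (not_lt.2 (hcon (m + k)))
        · intro j k hjk X hX
          refine ⟨?_, hm _ _ _ _ (seg_pre _ (by omega)) hX.2⟩
          have := hX.1
          rwa [seg_take _ _ _ (by omega)] at this ⊢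
      exact absurd (measure_mono h2 |>.trans h3) (not_le.2 hσ)
    · rintro ⟨k, hk⟩
      rw [hcy] at hk
      -- two subsets of cyl σ of measure more than half intersect
      have h4 : (E S ∩ cyl σ ∩ {X : Cantor | (seg X k).take m = σ ∧
          S (q.1, q.2, seg X k)}).Nonempty := by
        by_contra hemp
        rw [Set.not_nonempty_iff_eq_empty] at hemp
        have hdisj : Disjoint (E S ∩ cyl σ) {X : Cantor | (seg X k).take m = σ ∧
          S (q.1, q.2, seg X k)} := Set.disjoint_iff_inter_eq_empty.2 hemp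
        have hms : MeasurableSet {X : Cantor | (seg X k).take m = σ ∧
            S (q.1, q.2, seg X k)} :=
          measurableSet_stage k (fun τ => τ.take m = σ ∧ S (q.1, q.2, τ))
        have h5 := measure_union hdisj hms (μ := lam)
        by_cases hmk : m ≤ k
        · have h6 : (E S ∩ cyl σ) ∪ {X : Cantor | (seg X k).take m = σ ∧
              S (q.1, q.2, seg X k)} ⊆ cyl σ := by
            apply Set.union_subset Set.inter_subset_right
            intro X hX
            rw [mem_cyl_iff, ← hmdef, ← seg_take _ _ _ hmk]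
            exact hX.1
          have h7 := measure_mono (μ := lam) h6
          rw [h5] at h7
          have h8 : lam (cyl σ) < lam (E S ∩ cyl σ) + lam {X : Cantor | (seg X k).take m = σ ∧
              S (q.1, q.2, seg X k)} := by
            calc lam (cyl σ) = 2⁻¹ * lam (cyl σ) + 2⁻¹ * lam (cyl σ) := by
                  rw [← add_mul, ENNReal.inv_two_add_inv_two, one_mul]
              _ < _ := ENNReal.add_lt_add hσ hk
          exact absurd h7 (not_le.2 h8)
        · -- if k < m then the set is empty
          have h9 : {X : Cantor | (seg X k).take m = σ ∧ S (q.1, q.2, seg X k)} = ∅ := by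
            ext X
            simp only [Set.mem_ofPred_eq, Set.mem_empty_iff_false, iff_false, not_and]
            intro h10
            exfalso
            have := congrArg List.length h10
            rw [List.length_take, seg_length] at this
            omega
          rw [h9] at hk
          simp at hk
      obtain ⟨X, ⟨hX, -⟩, -, hXS⟩ := h4
      exact (hX q).2 ⟨k, hXS⟩
  -- so the graph is r.e.
  have hre : CE (fun _ => false) fun q : ℕ × Bool => ∃ k : ℕ, 2 ^ k < 2 ^ (m + 1) *
      cnt k (fun τ => τ.take m = σ ∧ S (q.1, q.2, τ)) := by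
    refine CE.ex (CE.of_primrec ?_)
    refine Primrec.nat_lt.comp (primrec_two_pow.comp Primrec.snd) ?_
    refine Primrec.nat_mul.comp (Primrec.const _) ?_
    refine primrec_cnt (β := (ℕ × Bool) × ℕ)
      (P := fun x τ => τ.take m = σ ∧ S (x.1.1, x.1.2, τ)) Primrec.snd ?_
    refine PrimrecPred.and ?_ ?_
    · exact Primrec.eq.comp (Primrec.list_take.comp (Primrec.const m) Primrec.snd)
        (Primrec.const σ)
    · exact hS.comp (Primrec.pair (Primrec.fst.comp (Primrec.fst.comp Primrec.fst))
        (Primrec.pair (Primrec.snd.comp (Primrec.fst.comp Primrec.fst)) Primrec.snd))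
  exact hre.of_iff fun q => (hvote q).symm

end Pool.Agent.Helper73.VL
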