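import Pool.Agent.Helper73.VL.Meas

open MeasureTheory

namespace Pool.Agent.Helper73.VL

theorem unifSigma_iff {A : Cantor} {U : ℕ → Set Cantor} :
    UnifSigma A U ↔ ∃ W : ℕ × List Bool → Prop, CE A W ∧
      ∀ n X, X ∈ U n ↔ ∃ k, W (n, seg X k) := by
  constructor
  · rintro ⟨f, hf, hU⟩
    refine ⟨fun q => (f q).Dom, relRE_iff_CE.1 ⟨f, hf, fun _ => Iff.rfl⟩, fun n X => ?_⟩
    rw [hU n]
    simp only [Set.mem_ofPred_eq, mem_cyl_iff]
    constructor
    · rintro ⟨σ, h1, h2⟩
      exact ⟨σ.length, by rwa [h2]⟩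
    · rintro ⟨k, hk⟩
      exact ⟨seg X k, hk, by simp⟩
  · rintro ⟨W, hW, hU⟩
    obtain ⟨f, hf, hfW⟩ := relRE_iff_CE.2 hW
    refine ⟨f, hf, fun n => ?_⟩
    ext X
    rw [hU n X]
    simp only [Set.mem_ofPred_eq, mem_cyl_iff, ← hfW]
    constructor
    · rintro ⟨k, hk⟩
      exact ⟨seg X k, hk, by simp⟩
    · rintro ⟨σ, h1, h2⟩
      exact ⟨σ.length, by rwa [h2]⟩

/-- Stage normal form. -/
theorem unifSigma_iff_stage {A : Cantor} {U : ℕ → Set Cantor} :
    UnifSigma A U ↔ ∃ R : ℕ → List Bool → List Bool → Prop,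
      (PrimrecPred fun x : ℕ × List Bool × List Bool => R x.1 x.2.1 x.2.2) ∧
      (∀ n σ σ' α α', σ <+: σ' → α <+: α' → R n σ α → R n σ' α') ∧
      ∀ n X, X ∈ U n ↔ ∃ k, R n (seg X k) (seg A k) := by
  rw [unifSigma_iff]
  constructor
  · rintro ⟨W, ⟨S, hS, hmono, hW⟩, hU⟩
    refine ⟨fun n σ α => ∃ j < σ.length + 1, S (n, σ.take j) α, ?_, ?_, ?_⟩
    · have h1 : PrimrecRel fun (x : ℕ × List Bool × List Bool) (j : ℕ) =>
          S (x.1, x.2.1.take j) x.2.2 := by
        refine hS.comp (Primrec.pair (Primrec.fst.comp Primrec.fst) ?_)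
          (Primrec.snd.comp (Primrec.snd.comp Primrec.fst))
        exact Primrec.list_take.comp Primrec.snd (Primrec.fst.comp (Primrec.snd.comp Primrec.fst))
      exact exists_lt_comp (f := fun x : ℕ × List Bool × List Bool => x.2.1.length + 1)
        (Primrec.succ.comp (Primrec.list_length.comp (Primrec.fst.comp Primrec.snd))) h1
    · rintro n σ σ' α α' ⟨ρ, rfl⟩ hα ⟨j, hj, hs⟩
      refine ⟨j, by simp only [List.length_append]; omega, ?_⟩
      rw [List.take_append_of_le_length (by omega)]
      exact hmono _ _ _ hα hs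
    · intro n X
      rw [hU]
      constructor
      · rintro ⟨k, hk⟩
        obtain ⟨l, hl⟩ := (hW _).1 hk
        refine ⟨max k l, k, ?_, ?_⟩
        · rw [seg_length]; omega
        · rw [seg_take _ _ _ (by omega)]
          exact hmono _ _ _ (seg_pre _ (le_max_right _ _)) hl
      · rintro ⟨k, j, hj, hs⟩
        rw [seg_length] at hj
        rw [seg_take _ _ _ (by omega)] at hs
        exact ⟨j, (hW _).2 ⟨k, hs⟩⟩
  · rintro ⟨R, hR, hmono, hU⟩
    refine ⟨fun q => R q.1 q.2 (seg A q.2.length), ?_, fun n X => ?_⟩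
    · refine CE.of_nonmono (fun q α => α.length = q.2.length ∧ R q.1 q.2 α) ?_ ?_
      · refine PrimrecPred.and ?_ ?_
        · exact Primrec.eq.comp (Primrec.list_length.comp Primrec.snd)
            (Primrec.list_length.comp (Primrec.snd.comp Primrec.fst))
        · exact hR.comp (Primrec.pair (Primrec.fst.comp Primrec.fst)
            (Primrec.pair (Primrec.snd.comp Primrec.fst) Primrec.snd))
      · rintro ⟨n, σ⟩
        constructor
        · intro h
          exact ⟨σ.length, by simp, h⟩
        · rintro ⟨k, h1, h2⟩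
          rw [seg_length] at h1
          simp only at h1
          subst h1
          exact h2
    · rw [hU]
      simp

theorem UnifSigma.measurableSet {A : Cantor} {U : ℕ → Set Cantor} (hU : UnifSigma A U) (n : ℕ) :
    MeasurableSet (U n) := by
  obtain ⟨W, -, h⟩ := unifSigma_iff.1 hU
  have : U n = ⋃ k, {X : Cantor | W (n, seg X k)} := by
    ext X; rw [h]; simp
  rw [this]
  exact MeasurableSet.iUnion fun k => measurableSet_stage k (fun τ => W (n, τ))

/-- Solovay's form of randomness. -/
theorem MLRandom.solovay {A X : Cantor} (hX : MLRandom A X) {U : ℕ → Set Cantor}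
    (hU : IsMLTest A U) : ∃ N, ∀ n, N < n → X ∉ U n := by
  obtain ⟨hS, hm⟩ := hU
  obtain ⟨W, hW, hUW⟩ := unifSigma_iff.1 hS
  have hV : IsMLTest A (fun n => ⋃ m, U (n + 1 + m)) := by
    refine ⟨unifSigma_iff.2 ⟨fun q => ∃ m : ℕ, W (q.1 + 1 + m, q.2), ?_, ?_⟩, ?_⟩
    · refine CE.ex (p := fun (q : ℕ × List Bool) (m : ℕ) => W (q.1 + 1 + m, q.2)) ?_
      refine hW.comp (f := fun x : (ℕ × List Bool) × ℕ => (x.1.1 + 1 + x.2, x.1.2)) ?_
      refine Primrec.pair ?_ (Primrec.snd.comp Primrec.fst)
      exact Primrec.nat_add.comp (Primrec.succ.comp (Primrec.fst.comp Primrec.fst)) Primrec.snd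
    · intro n X
      simp only [Set.mem_iUnion, hUW]
      exact exists_comm
    · intro n
      calc lam (⋃ m, U (n + 1 + m)) ≤ ∑' m, lam (U (n + 1 + m)) := measure_iUnion_le _
        _ ≤ ∑' m : ℕ, (2⁻¹ : ENNReal) ^ (n + 1 + m) := ENNReal.tsum_le_tsum fun m => hm _
        _ = ∑' m : ℕ, (2⁻¹ : ENNReal) ^ (n + 1) * 2⁻¹ ^ m := by simp only [pow_add]
        _ = (2⁻¹ : ENNReal) ^ n := by
          rw [ENNReal.tsum_mul_left, ENNReal.tsum_geometric, ENNReal.one_sub_inv_two, inv_inv,
            pow_succ, mul_assoc, ENNReal.inv_mul_cancel (by norm_num) (by norm_num), mul_one]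
  have := hX _ hV
  simp only [Set.mem_iInter, not_forall] at this
  obtain ⟨N, hN⟩ := this
  refine ⟨N, fun n hn h => hN ?_⟩
  rw [Set.mem_iUnion]
  exact ⟨n - (N + 1), by rwa [show N + 1 + (n - (N + 1)) = n by omega]⟩

/-- Preimages of uniformly `Σ⁰₁` classes under computable measure-preserving maps. -/
theorem UnifSigma.preimage_trans {O : Cantor} {U : ℕ → Set Cantor} (hU : UnifSigma O U)
    {g : ℕ → ℕ} (hg : Primrec g) {D : Cantor} (hD : CE O fun q : ℕ × Bool => D q.1 = q.2) :
    UnifSigma O (fun n => trans g D ⁻¹' U n) := by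
  obtain ⟨W, hW, hUW⟩ := unifSigma_iff.1 hU
  refine unifSigma_iff.2 ⟨fun q => ∃ σ : List Bool, (W (q.1, σ)) ∧
    ∀ i < σ.length, ∃ b : Bool, (q.2[g i]? = some b) ∧ (D i = xor b (σ.getD i false)), ?_, ?_⟩
  · refine CE.ex (p := fun (q : ℕ × List Bool) (σ : List Bool) => (W (q.1, σ)) ∧
      ∀ i < σ.length, ∃ b : Bool, (q.2[g i]? = some b) ∧ (D i = xor b (σ.getD i false))) ?_
    refine CE.and ?_ ?_
    · exact hW.comp (f := fun x : (ℕ × List Bool) × List Bool => (x.1.1, x.2))
        (Primrec.pair (Primrec.fst.comp Primrec.fst) Primrec.snd)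
    · refine CE.ball (p := fun (x : (ℕ × List Bool) × List Bool) (i : ℕ) =>
        ∃ b : Bool, (x.1.2[g i]? = some b) ∧ (D i = xor b (x.2.getD i false))) ?_
        (Primrec.list_length.comp Primrec.snd)
      refine CE.ex (p := fun (y : ((ℕ × List Bool) × List Bool) × ℕ) (b : Bool) =>
        (y.1.1.2[g y.2]? = some b) ∧ (D y.2 = xor b (y.1.2.getD y.2 false))) ?_
      refine CE.and (CE.of_primrec ?_) ?_
      · refine Primrec.eq.comp (Primrec.list_getElem?.comp ?_ ?_)
          (Primrec.option_some.comp Primrec.snd)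
        · exact Primrec.snd.comp (Primrec.fst.comp (Primrec.fst.comp Primrec.fst))
        · exact hg.comp (Primrec.snd.comp Primrec.fst)
      · refine hD.comp (f := fun z : (((ℕ × List Bool) × List Bool) × ℕ) × Bool =>
          (z.1.2, xor z.2 (z.1.1.2.getD z.1.2 false))) ?_
        refine Primrec.pair (Primrec.snd.comp Primrec.fst) ?_
        refine (Primrec.dom_bool₂ xor).comp Primrec.snd ?_
        exact (Primrec.list_getD false).comp (Primrec.snd.comp (Primrec.fst.comp Primrec.fst))
          (Primrec.snd.comp Primrec.fst)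
  · intro n Z
    rw [Set.mem_preimage, hUW]
    constructor
    · rintro ⟨k, hk⟩
      -- choose a long enough initial segment of Z
      refine ⟨(Finset.range k).sup (fun i => g i + 1), seg (trans g D Z) k, hk, fun i hi => ?_⟩
      rw [seg_length] at hi
      have h1 : g i < (Finset.range k).sup (fun i => g i + 1) :=
        Nat.lt_of_succ_le (Finset.le_sup (f := fun i => g i + 1) (Finset.mem_range.2 hi))
      refine ⟨Z (g i), seg_getElem? _ _ _ h1, ?_⟩
      rw [List.getD_eq_getElem?_getD, seg_getElem? _ _ _ hi]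
      simp [trans]
    · rintro ⟨k, σ, hσ, hi⟩
      refine ⟨σ.length, ?_⟩
      have h2 : seg (trans g D Z) σ.length = σ := by
        rw [← mem_cyl_iff]
        intro i hil
        obtain ⟨b, hb, hd⟩ := hi i hil
        rw [seg_getElem?_eq] at hb
        split_ifs at hb with h3
        have hb' := Option.some.inj hb
        rw [List.getD_eq_getElem?_getD, List.getElem?_eq_getElem hil, Option.getD_some] at hd
        simp only [trans, hb', hd, ← Bool.xor_assoc]
        simp
      simp only [h2]
      exact hσ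

theorem MLRandom.trans {O Z : Cantor} (hZ : MLRandom O Z) {g : ℕ → ℕ} (hg : Primrec g)
    (hgi : Function.Injective g) {D : Cantor} (hD : CE O fun q : ℕ × Bool => D q.1 = q.2) :
    MLRandom O (trans g D Z) := by
  intro U hU hmem
  refine hZ (fun n => Pool.Agent.Helper73.VL.trans g D ⁻¹' U n)
    ⟨hU.1.preimage_trans hg hD, fun n => ?_⟩ ?_
  · rw [← Measure.map_apply (measurable_trans g D) (hU.1.measurableSet n), map_trans hgi D]
    exact hU.2 n
  · simpa using hmem

theorem CE.false_graph (O : Cantor) :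
    CE O fun q : ℕ × Bool => (fun _ => false : Cantor) q.1 = q.2 :=
  CE.of_primrec (Primrec.eq.comp (Primrec.const false) Primrec.snd)

theorem MLRandom.left {O X Y : Cantor} (h : MLRandom O (join X Y)) : MLRandom O X := by
  have := h.trans (g := fun i => 2 * i) (Primrec.nat_mul.comp (Primrec.const 2) Primrec.id)
    (fun a b hab => by simpa using hab) (D := fun _ => false) (CE.false_graph O)
  have h2 : VL.trans (fun i => 2 * i) (fun _ => false) (join X Y) = X := by
    funext i; simp [VL.trans]
  rwa [h2] at this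

theorem MLRandom.swap {O X Y : Cantor} (h : MLRandom O (join X Y)) : MLRandom O (join Y X) := by
  have hg : Primrec fun i : ℕ => if i % 2 = 0 then i + 1 else i - 1 := by
    refine Primrec.ite ?_ Primrec.succ Primrec.pred
    exact Primrec.eq.comp (Primrec.nat_mod.comp Primrec.id (Primrec.const 2)) (Primrec.const 0)
  have := h.trans hg ?_ (D := fun _ => false) (CE.false_graph O)
  · have h2 : VL.trans (fun i : ℕ => if i % 2 = 0 then i + 1 else i - 1) (fun _ => false)
        (join X Y) = join Y X := by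
      funext i
      simp only [VL.trans, Bool.xor_false]
      by_cases hi : i % 2 = 0
      · have h3 : i = 2 * (i / 2) := by omega
        rw [if_pos hi, h3, join_odd, join_even]
      · have h3 : i = 2 * (i / 2) + 1 := by omega
        rw [if_neg hi, h3, join_odd, show 2 * (i / 2) + 1 - 1 = 2 * (i / 2) by omega, join_even]
    rwa [h2] at this
  · intro a b hab
    simp only at hab
    split_ifs at hab <;> omega

end Pool.Agent.Helper73.VL
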